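import Pool.Agent.Helper26.VC.Main3

/-!
# Project FF, block BCFK, part A: the order of `r ^ l` at an unramified place
-/

set_option autoImplicit false

namespace Pool.Agent.FFX

open VC

/-- The statement of helper88's lemma `ram`. -/
def StmtRAM : Prop :=
  ∀ {C : Type} [Field C] [IsAlgClosed C] [CharZero C] {M : Subfield C}, (∀ z : C, IsAlgebraic M z) →
    ∀ {l : ℕ}, l.Prime → (∀ z : C, z ^ l = 1 → z ∈ M) → ∀ {r : C}, r ≠ 0 → r ^ l ∈ M →
    ∀ W : ValuationSubring C, (∀ z ∈ M, W.valuation z ^ l ≠ W.valuation (r ^ l)) →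
    ∃ g : C ≃+* C, (∀ z ∈ M, g z = z) ∧ (∀ z, g z ∈ W ↔ z ∈ W) ∧ g r ≠ r

theorem partA' (hRAM : StmtRAM) {E C : Type} [Field E] [IsAlgClosed E] [CharZero E] [Field C] [IsAlgClosed C]
    [Algebra E C] (K : IntermediateField E C) (hK : IsFunctionField E K) (halg : ∀ z : C, IsAlgebraic K z)
    (Q : Place E K) (W : ValuationSubring C) (hW : W.comap (algebraMap K C) = Q.ring) {l : ℕ}
    (hl : l.Prime) {r : C} (hr0 : r ≠ 0) (hr : r ^ l ∈ K)
    (hγ : ∀ γ : C ≃+* C, (∀ z ∈ K, γ z = z) → (∀ z, γ z ∈ W ↔ z ∈ W) → γ r = r) :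
    (l : ℤ) ∣ ord Q.ring (⟨r ^ l, hr⟩ : K) := by
  by_contra hcon
  have hC : CharZero C := charZero_of_injective_algebraMap (algebraMap E C).injective
  have hroot : ∀ z : C, z ^ l = 1 → z ∈ K.toSubfield := by
    intro z hz
    have h1 : IsIntegral E z := by
      refine ⟨Polynomial.X ^ l - Polynomial.C 1, Polynomial.monic_X_pow_sub_C _ hl.ne_zero, ?_⟩
      simp [hz]
    obtain ⟨e, rfl⟩ := minpoly.mem_range_of_degree_eq_one E z
      (IsAlgClosed.degree_eq_one_of_irreducible E (minpoly.irreducible h1))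
    exact K.algebraMap_mem e
  obtain ⟨g, hg1, hg2, hg3⟩ := hRAM (M := K.toSubfield) halg hl hroot hr0 hr W (by
    intro z hz h
    have hz0 : z ≠ 0 := by
      rintro rfl
      rw [map_zero, zero_pow hl.ne_zero] at h
      exact pow_ne_zero l hr0 ((map_eq_zero W.valuation).1 h.symm)
    apply hcon
    have hz' : z ∈ K := hz
    obtain ⟨x, hx⟩ : ∃ x : K, x = ⟨z, hz'⟩ := ⟨_, rfl⟩
    obtain ⟨y, hy⟩ : ∃ y : K, y = ⟨r ^ l, hr⟩ := ⟨_, rfl⟩
    have hx0 : x ≠ 0 := by rw [hx]; exact fun h => hz0 (congrArg Subtype.val h)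
    have hy0 : y ≠ 0 := by rw [hy]; exact fun h => pow_ne_zero l hr0 (congrArg Subtype.val h)
    have hxc : (x : C) = z := by rw [hx]
    have hyc : (y : C) = r ^ l := by rw [hy]
    have hu : ∀ a b : K, a ≠ 0 → b ≠ 0 → W.valuation (a : C) = W.valuation (b : C) →
        0 ≤ ord Q.ring (a / b) := by
      intro a b ha hb hab
      rw [ord_nonneg_iff hK Q (div_ne_zero ha hb), ← hW, ValuationSubring.mem_comap,
        ← ValuationSubring.valuation_le_one_iff]
      change W.valuation ((a / b : K) : C) ≤ 1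
      rw [IntermediateField.coe_div, map_div₀, hab, div_self]
      rw [Ne, map_eq_zero]
      exact fun h => hb (Subtype.ext h)
    have hdiv : ∀ a b : K, a ≠ 0 → b ≠ 0 → ord Q.ring (a / b) = ord Q.ring a - ord Q.ring b := by
      intro a b ha hb
      rw [div_eq_mul_inv, ord_mul hK Q ha (inv_ne_zero hb), ord_inv hK Q hb]
      ring
    have hpow : ∀ (n : ℕ) (a : K), a ≠ 0 → ord Q.ring (a ^ n) = n * ord Q.ring a := by
      intro n a ha
      induction n with
      | zero => rw [pow_zero, ord_one hK Q]; simp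
      | succ n ih =>
        rw [pow_succ, ord_mul hK Q (pow_ne_zero n ha) ha, ih]
        push_cast
        ring
    have hval : W.valuation ((x ^ l : K) : C) = W.valuation (y : C) := by
      rw [IntermediateField.coe_pow, map_pow, hxc, hyc, h]
    have h1 := hu (x ^ l) y (pow_ne_zero l hx0) hy0 hval
    have h2 := hu y (x ^ l) hy0 (pow_ne_zero l hx0) hval.symm
    rw [hdiv _ _ (pow_ne_zero l hx0) hy0] at h1
    rw [hdiv _ _ hy0 (pow_ne_zero l hx0)] at h2
    have h3 : ord Q.ring y = l * ord Q.ring x := by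
      rw [← hpow l x hx0]
      omega
    rw [← hy]
    exact ⟨_, h3⟩)
  exact hg3 (hγ g hg1 hg2)

end Pool.Agent.FFX
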