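import Pool.Agent.Helper10.FF.Defs3
import Pool.Agent.Helper10.UT.E6

/-!
# Project FF, block FS: the field side, from the key statement
-/

set_option autoImplicit false

namespace Pool.Agent.FFX

open Polynomial Pool.Agent.UT
open Pool.Agent.FFS (HypC GoodW OnB StmtFS)
open Pool.Agent.SE (prm)

theorem goodW_range {F k E : Type} [Field F] [Field k] [Field E] [Algebra F k] [Algebra k E]
    {S : Set k} {W : ValuationSubring E} :
    GoodW (algebraMap F k).fieldRange S W ↔ GoodW F S W := by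
  constructor
  · intro h
    exact ⟨h.ne, fun z => h.const ⟨algebraMap F k z, z, rfl⟩, h.mem⟩
  · intro h
    refine ⟨h.ne, ?_, h.mem⟩
    rintro ⟨_, z, rfl⟩
    exact h.const z

theorem hypC_range {F k E : Type} [Field F] [Field k] [Field E] [Algebra F k] [Algebra k E]
    {S : Set k} {B : Set E} {ℓ : ℕ} {c : k} {W₀ : ValuationSubring E}
    (h : HypC (algebraMap F k).fieldRange S B ℓ c W₀) : HypC F S B ℓ c W₀ where
  good := goodW_range.1 h.good
  c0 := h.c0
  zero := h.zero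
  reg := fun W hW => h.reg W (goodW_range.2 hW)
  gen := h.gen
  conj := fun W hW => h.conj W (goodW_range.2 hW)
  surj := h.surj
  kum := fun r h1 h2 h3 => h.kum r h1 (fun W hW => h2 W (goodW_range.1 hW))
    (fun W hW => h3 W (goodW_range.1 hW))

/-- **Block FS.** -/
theorem fs (hKEY : StmtKEY) (hEPF : StmtEPF.{0}) : StmtFS := by
  classical
  intro F₀ k₀ _ _ _ _ hfg htd m w e hind ℓ hℓ S f hf
  have hc : CharZero k₀ := charZero_of_injective_algebraMap (algebraMap F₀ k₀).injective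
  obtain ⟨S', hS'⟩ : ∃ S' : Finset k₀, S' = S ∪ (Finset.univ.image w ∪ Finset.univ.image fun i => (w i)⁻¹) :=
    ⟨_, rfl⟩
  have hRS : ∀ x ∈ Set.range w, x ∈ S' ∧ x⁻¹ ∈ S' := by
    rintro _ ⟨i, rfl⟩
    rw [hS']
    exact ⟨Finset.mem_union_right _ (Finset.mem_union_left _ (Finset.mem_image_of_mem _ (Finset.mem_univ i))),
      Finset.mem_union_right _ (Finset.mem_union_right _
        (Finset.mem_image_of_mem (fun i => (w i)⁻¹) (Finset.mem_univ i)))⟩
  obtain ⟨Φ, hΦ, hmain⟩ := hEPF (F₀ := F₀) (k₀ := k₀) (N := 0) (P := PF k₀ S' f ℓ) (m := m) (w := w) (e := e)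
    (hKEY k₀ (Set.range w) S' hRS f hf ℓ hℓ) hfg htd hind
  refine ⟨S', by rw [hS']; exact Finset.subset_union_left, _, hΦ.rename (Equiv.emptySum (Fin 0) (Fin (m + 1))), ?_⟩
  intro F k E _ _ _ _ _ _ _ _ _ _ _ hFfg hadj hai a ha
  by_contra hcon
  obtain ⟨x, hx⟩ := hmain F k hFfg hadj hai (Sum.elim Fin.elim0 a) ⟨E, inferInstance, inferInstance,
    inferInstance, fun ⟨W₀, hW₀⟩ => hcon ⟨W₀, hypC_range hW₀⟩⟩
  apply ha x
  rw [eval₂_map, ← hx]
  congr 1
  apply MvPolynomial.ringHom_ext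
  · intro r
    simp
  · intro i
    rcases i with i | i
    · exact Fin.elim0 i
    · simp

end Pool.Agent.FFX
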