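import Pool.Agent.Helper45.FF.BCF
import Pool.Agent.Helper59.PL.PXL
import Pool.Agent.Helper37.L.TRc
import Pool.Agent.Helper13.LT.W2
import Pool.Agent.SC.LinDisj
import Pool.Agent.SC.UnramDesc

/-!
# Project FF, block KP: preparations
-/

set_option autoImplicit false
set_option linter.unusedSectionVars false

namespace Pool.Agent.FF59

open VC IntermediateField Polynomial Pool.Agent.SC
open Pool.Agent.L (L0 MM)
open Pool.Agent.LN (Geo)
open Pool.Agent.M (Moves OverPl inL0)
open Pool.Agent.ML (BPl)
open Pool.Agent.TOW (Au AuE over59 auE59 inL59 rMM59 L0_le_MM exists_im)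
open Pool.Agent.PDL (eig_root root_const gal_L0)
open scoped TensorProduct

/-- a homomorphism whose values lie in the image of an injective one -/
theorem lift_hom {R S T : Type} [Ring R] [Ring S] [Ring T] (i : S →+* T)
    (hi : Function.Injective i) (f : R →+* T) (h : ∀ r, ∃ s, i s = f r) :
    ∃ g : R →+* S, ∀ r, i (g r) = f r := by
  choose g hg using h
  refine ⟨{ toFun := g, map_one' := ?_, map_mul' := ?_, map_zero' := ?_, map_add' := ?_ }, hg⟩
  · exact hi (by rw [hg, map_one, map_one])
  · exact fun a b => hi (by rw [hg, map_mul, map_mul, hg, hg])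
  · exact hi (by rw [hg, map_zero, map_zero])
  · exact fun a b => hi (by rw [hg, map_add, map_add, hg, hg])

/-- elements algebraic over an algebraically closed field are constants -/
theorem alg_const {E U : Type} [Field E] [IsAlgClosed E] [Field U] [Algebra E U] {z : U}
    (hz : IsAlgebraic E z) : ∃ e : E, algebraMap E U e = z := by
  have h2 : (minpoly E z).degree = 1 :=
    IsAlgClosed.degree_eq_one_of_irreducible E (minpoly.irreducible hz.isIntegral)
  exact minpoly.mem_range_of_degree_eq_one E z h2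

/-! ## The constant extension -/

section constExt

variable {A L E U : Type} [Field A] [Field L] [Field E] [Field U] [Algebra A L] [Algebra A E]
  [Algebra E U] [Algebra A U] [IsScalarTower A E U]

theorem constExt59 [IsAlgClosed A] [CharZero A] (ψ : L →+* U)
    (hψ : ∀ a : A, ψ (algebraMap A L a) = algebraMap A U a) (M : IntermediateField E U)
    (hM : M = adjoin E (Set.range ψ)) {t : L} (ht : Transcendental E (ψ t))
    (halg : Algebra.IsAlgebraic A⟮t⟯ L) :
    ∃ (_ : Algebra L M) (_ : IsScalarTower A L M), (∀ x : L, ((algebraMap L M x : M) : U) = ψ x) ∧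
      FF.IsConstExt A E L M := by
  subst hM
  let i1 : Algebra L (adjoin E (Set.range ψ)) := (ψ.codRestrict (adjoin E (Set.range ψ)).toSubfield.toSubring
    (fun z => subset_adjoin E _ ⟨z, rfl⟩)).toAlgebra
  have hval : ∀ z : L, ((algebraMap L (adjoin E (Set.range ψ)) z : adjoin E (Set.range ψ)) : U) = ψ z :=
    fun z => rfl
  have hT : IsScalarTower A L (adjoin E (Set.range ψ)) := by
    apply IsScalarTower.of_algebraMap_eq
    intro a
    apply Subtype.ext
    rw [hval, hψ]
    rfl
  refine ⟨i1, hT, hval, ?_⟩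
  let i2 : Algebra L U := ψ.toAlgebra
  have s2 : IsScalarTower A L U := IsScalarTower.of_algebraMap_eq fun a => (hψ a).symm
  have hprod : ∀ s : E ⊗[A] L, ((FF.prodMap A E L (adjoin E (Set.range ψ)) s :
      adjoin E (Set.range ψ)) : U) = FF.prodMap A E L U s := by
    intro s
    induction s using TensorProduct.induction_on with
    | zero => rw [map_zero, map_zero]; rfl
    | tmul a f => rw [FF.prodMap_tmul, FF.prodMap_tmul]; rfl
    | add a b ha hb => rw [map_add, map_add, ← ha, ← hb]; rfl
  refine ⟨?_, ?_⟩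
  · let b := Module.Basis.ofVectorSpace A E
    have h1 : LinearIndependent L (fun i => algebraMap E U (b i)) :=
      SC.linearIndependent_of_transcendental (E := A) (A := L) (U := E) (L := U)
        (x := t) ht halg b.linearIndependent
    have h2 := SC.prodMap_injective (k := A) (Ω := L) (F := E) (M := U) b h1
    have h3 : ∀ s : E ⊗[A] L, FF.prodMap A E L U s =
        FF.prodMap A L E U (TensorProduct.comm A _ _ s) := by
      intro s
      induction s using TensorProduct.induction_on with
      | zero => rw [map_zero, map_zero, map_zero]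
      | tmul a f => rw [FF.prodMap_tmul, TensorProduct.comm_tmul, FF.prodMap_tmul, mul_comm]
      | add a b ha hb => rw [map_add, map_add, map_add, ← ha, ← hb]
    intro s t hst
    apply (TensorProduct.comm A E L).injective
    apply h2
    rw [← h3, ← h3, ← hprod, ← hprod, hst]
  · intro z
    have hz : (z : U) ∈ adjoin E (Set.range ψ) := z.2
    let π := FF.prodMap A E L U
    have key : ∀ w ∈ adjoin E (Set.range ψ), ∃ s t : E ⊗[A] L, π t ≠ 0 ∧ w * π t = π s := by
      intro w hw
      induction hw using IntermediateField.adjoin_induction with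
      | mem w hw =>
        obtain ⟨x, rfl⟩ := hw
        refine ⟨1 ⊗ₜ x, 1, ?_, ?_⟩
        · rw [map_one]; exact one_ne_zero
        · rw [map_one, mul_one, FF.prodMap_tmul, map_one, one_mul]; rfl
      | algebraMap a =>
        refine ⟨a ⊗ₜ 1, 1, ?_, ?_⟩
        · rw [map_one]; exact one_ne_zero
        · rw [map_one, mul_one, FF.prodMap_tmul, map_one, mul_one]
      | add a b _ _ ha hb =>
        obtain ⟨s1, t1, h1, h1'⟩ := ha
        obtain ⟨s2, t2, h2, h2'⟩ := hb
        refine ⟨s1 * t2 + s2 * t1, t1 * t2, ?_, ?_⟩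
        · rw [map_mul]; exact mul_ne_zero h1 h2
        · rw [map_mul, map_add, map_mul, map_mul, ← h1', ← h2']; ring
      | inv a _ ha =>
        obtain ⟨s1, t1, h1, h1'⟩ := ha
        by_cases ha0 : a = 0
        · refine ⟨0, 1, ?_, ?_⟩
          · rw [map_one]; exact one_ne_zero
          · rw [ha0, inv_zero, zero_mul, map_zero]
        · refine ⟨t1, s1, ?_, ?_⟩
          · rw [← h1']; exact mul_ne_zero ha0 h1
          · rw [← h1', ← mul_assoc, inv_mul_cancel₀ ha0, one_mul]
      | mul a b _ _ ha hb =>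
        obtain ⟨s1, t1, h1, h1'⟩ := ha
        obtain ⟨s2, t2, h2, h2'⟩ := hb
        refine ⟨s1 * s2, t1 * t2, ?_, ?_⟩
        · rw [map_mul]; exact mul_ne_zero h1 h2
        · rw [map_mul, map_mul, ← h1', ← h2']; ring
    obtain ⟨s, t, ht, hst⟩ := key z hz
    refine ⟨s, t, ?_, ?_⟩
    · intro h0
      apply ht
      have h1 := hprod t
      rw [h0] at h1
      exact h1.symm
    · apply Subtype.ext
      change (z : U) * ((FF.prodMap A E L (adjoin E (Set.range ψ)) t : adjoin E (Set.range ψ)) : U) =
        ((FF.prodMap A E L (adjoin E (Set.range ψ)) s : adjoin E (Set.range ψ)) : U)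
      rw [hprod, hprod]
      exact hst

end constExt

/-! ## The universal situation -/

section univ

variable {k₀ K₀ : Type} [Field k₀] [Field K₀] [Algebra k₀ K₀]

/-- the embedding in a situation -/
theorem exists_psi {E U : Type} [Field E] [IsAlgClosed E] [Field U] [Algebra E U] [Algebra K₀ U]
    [Algebra k₀ E] [Algebra k₀ U] [IsScalarTower k₀ E U] [IsScalarTower k₀ K₀ U] :
    ∃ (φ : algebraicClosure k₀ (AlgebraicClosure K₀) →+* E)
      (ψ : L0 (algebraicClosure k₀ (AlgebraicClosure K₀)) K₀ (U := AlgebraicClosure K₀) →+* U),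
      (∀ a, ψ (algebraMap _ _ a) = algebraMap E U (φ a)) ∧
      (∀ x : K₀, ψ (inL0 x) = algebraMap K₀ U x) ∧
      ∀ a : k₀, φ (algebraMap k₀ _ a) = algebraMap k₀ E a := by
  let f : AlgebraicClosure K₀ →ₐ[K₀] AlgebraicClosure U := IsAlgClosed.lift
  have hE : ∀ a : algebraicClosure k₀ (AlgebraicClosure K₀),
      ∃ e : E, algebraMap E (AlgebraicClosure U) e = f (a : AlgebraicClosure K₀) := by
    intro a
    apply alg_const
    have h1 : IsAlgebraic k₀ (a : AlgebraicClosure K₀) := mem_algebraicClosure_iff.1 a.2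
    have h2 : IsAlgebraic k₀ (f (a : AlgebraicClosure K₀)) := h1.algHom (f.restrictScalars k₀)
    exact h2.extendScalars (algebraMap k₀ E).injective
  obtain ⟨φ, hφ⟩ := lift_hom (algebraMap E (AlgebraicClosure U)) (algebraMap E _).injective
    ((f : AlgebraicClosure K₀ →+* AlgebraicClosure U).comp
      (algebraMap (algebraicClosure k₀ (AlgebraicClosure K₀)) (AlgebraicClosure K₀))) hE
  have hU : ∀ x : L0 (algebraicClosure k₀ (AlgebraicClosure K₀)) K₀ (U := AlgebraicClosure K₀),
      ∃ u : U, algebraMap U (AlgebraicClosure U) u = f (x : AlgebraicClosure K₀) := by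
    let S : IntermediateField (algebraicClosure k₀ (AlgebraicClosure K₀)) (AlgebraicClosure K₀) :=
      { (algebraMap U (AlgebraicClosure U)).fieldRange.comap
          (f : AlgebraicClosure K₀ →+* AlgebraicClosure U) with
        algebraMap_mem' := fun a => by
          obtain ⟨e, he⟩ := hE a
          exact ⟨algebraMap E U e, by
            rw [← IsScalarTower.algebraMap_apply]
            exact he⟩ }
    have h1 : L0 (algebraicClosure k₀ (AlgebraicClosure K₀)) K₀ (U := AlgebraicClosure K₀) ≤ S := by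
      rw [L0, adjoin_le_iff]
      rintro _ ⟨x, rfl⟩
      exact ⟨algebraMap K₀ U x, by
        rw [← IsScalarTower.algebraMap_apply]
        exact (f.commutes x).symm⟩
    intro x
    exact h1 x.2
  obtain ⟨ψ, hψ⟩ := lift_hom (algebraMap U (AlgebraicClosure U)) (algebraMap U _).injective
    ((f : AlgebraicClosure K₀ →+* AlgebraicClosure U).comp
      (algebraMap (L0 (algebraicClosure k₀ (AlgebraicClosure K₀)) K₀ (U := AlgebraicClosure K₀))
        (AlgebraicClosure K₀))) hU
  refine ⟨φ, ψ, fun a => ?_, fun x => ?_, fun a => ?_⟩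
  · apply (algebraMap U (AlgebraicClosure U)).injective
    rw [hψ, ← IsScalarTower.algebraMap_apply, hφ]
    rfl
  · apply (algebraMap U (AlgebraicClosure U)).injective
    rw [hψ, ← IsScalarTower.algebraMap_apply]
    exact f.commutes x
  · apply (algebraMap E (AlgebraicClosure U)).injective
    rw [hφ, ← IsScalarTower.algebraMap_apply]
    have h1 : f (algebraMap k₀ (AlgebraicClosure K₀) a) = algebraMap k₀ (AlgebraicClosure U) a :=
      (f.restrictScalars k₀).commutes a
    exact h1

/-- an element of the universal field is fixed if finitely many constants are fixed -/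
theorem fin_coeff (t : L0 (algebraicClosure k₀ (AlgebraicClosure K₀)) K₀ (U := AlgebraicClosure K₀)) :
    ∃ Z : Finset (algebraicClosure k₀ (AlgebraicClosure K₀)), ∀ (U : Type) [Field U]
      (ψ : L0 (algebraicClosure k₀ (AlgebraicClosure K₀)) K₀ (U := AlgebraicClosure K₀) →+* U)
      (T : U ≃+* U), (∀ x : K₀, T (ψ (inL0 x)) = ψ (inL0 x)) →
      (∀ α ∈ Z, T (ψ (algebraMap _ _ α)) = ψ (algebraMap _ _ α)) → T (ψ t) = ψ t := by
  classical
  obtain ⟨t, ht⟩ := t
  refine IntermediateField.adjoin_induction (p := fun t ht =>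
    ∃ Z : Finset (algebraicClosure k₀ (AlgebraicClosure K₀)), ∀ (U : Type) [Field U]
      (ψ : L0 (algebraicClosure k₀ (AlgebraicClosure K₀)) K₀ (U := AlgebraicClosure K₀) →+* U)
      (T : U ≃+* U), (∀ x : K₀, T (ψ (inL0 x)) = ψ (inL0 x)) →
      (∀ α ∈ Z, T (ψ (algebraMap _ _ α)) = ψ (algebraMap _ _ α)) → T (ψ ⟨t, ht⟩) = ψ ⟨t, ht⟩)
    (algebraicClosure k₀ (AlgebraicClosure K₀)) ?_ ?_ ?_ ?_ ?_ ht
  · rintro _ ⟨x, rfl⟩
    exact ⟨∅, fun U _ ψ T h1 _ => h1 x⟩
  · intro a
    exact ⟨{a}, fun U _ ψ T _ h2 => h2 a (Finset.mem_singleton_self a)⟩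
  · rintro x y hx hy ⟨Z, hZ⟩ ⟨Z', hZ'⟩
    refine ⟨Z ∪ Z', fun U _ ψ T h1 h2 => ?_⟩
    have e1 := hZ U ψ T h1 fun α hα => h2 α (Finset.mem_union_left _ hα)
    have e2 := hZ' U ψ T h1 fun α hα => h2 α (Finset.mem_union_right _ hα)
    have e3 : (⟨x + y, add_mem hx hy⟩ : L0 (algebraicClosure k₀ (AlgebraicClosure K₀)) K₀
      (U := AlgebraicClosure K₀)) = ⟨x, hx⟩ + ⟨y, hy⟩ := rfl
    rw [e3, map_add, map_add, e1, e2]
  · rintro x hx ⟨Z, hZ⟩
    refine ⟨Z, fun U _ ψ T h1 h2 => ?_⟩
    have e1 := hZ U ψ T h1 h2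
    have e3 : (⟨x⁻¹, inv_mem hx⟩ : L0 (algebraicClosure k₀ (AlgebraicClosure K₀)) K₀
      (U := AlgebraicClosure K₀)) = ⟨x, hx⟩⁻¹ := rfl
    rw [e3, map_inv₀, map_inv₀, e1]
  · rintro x y hx hy ⟨Z, hZ⟩ ⟨Z', hZ'⟩
    refine ⟨Z ∪ Z', fun U _ ψ T h1 h2 => ?_⟩
    have e1 := hZ U ψ T h1 fun α hα => h2 α (Finset.mem_union_left _ hα)
    have e2 := hZ' U ψ T h1 fun α hα => h2 α (Finset.mem_union_right _ hα)
    have e3 : (⟨x * y, mul_mem hx hy⟩ : L0 (algebraicClosure k₀ (AlgebraicClosure K₀)) K₀
      (U := AlgebraicClosure K₀)) = ⟨x, hx⟩ * ⟨y, hy⟩ := rfl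
    rw [e3, map_mul, map_mul, e1, e2]

end univ

/-! ## Unramified outside the zeros and poles of `h` -/

section unr

variable {k K0 E U : Type} [Field k] [Field K0] [Field E] [Field U] [Algebra k K0]
  [Algebra k E] [Algebra E U] [Algebra K0 U] [Algebra k U] [IsScalarTower k E U]
  [IsScalarTower k K0 U]

theorem dvd59 [CharZero k] {ℓ : ℕ} {h : K0} {r : U} (hℓ : ℓ.Prime) (G : Geo k K0 E U ℓ h r)
    {z : U} {u : L0 E K0 (U := U)} (hu0 : u ≠ 0) (hu : (u : U) = z ^ ℓ)
    (Q : Place E (L0 E K0 (U := U))) (hQ : ord Q.ring (inL0 h : L0 E K0 (U := U)) = 0) :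
    (ℓ : ℤ) ∣ ord Q.ring u := by
  have hcl : IsAlgClosed E := G.clE
  have hcE : CharZero E := charZero_of_injective_algebraMap (algebraMap k E).injective
  have hcU : CharZero U := charZero_of_injective_algebraMap (algebraMap k U).injective
  have hgal : IsGalois (L0 E K0 (U := U)) U := gal_L0 G.normal
  have ff := G.ff
  obtain ⟨W, hW⟩ := over59 Q
  have hr0 : r ∉ L0 E K0 (U := U) := by
    have h1 := G.rnot 1 one_pos hℓ.one_lt
    rwa [pow_one] at h1
  have hrn : r ≠ 0 := by
    rintro rfl
    exact hr0 (zero_mem _)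
  have hh : ((inL0 h : L0 E K0 (U := U)) : U) = r ^ ℓ := G.rpow.symm
  have hh0 : (inL0 h : L0 E K0 (U := U)) ≠ 0 := by
    intro h0
    rw [h0] at hh
    exact pow_ne_zero ℓ hrn hh.symm
  -- `r` is a unit
  have hr1 : W.ring.valuation r = 1 := by
    have h1 : (inL0 h : L0 E K0 (U := U)) ∈ Q.ring := (FF.ord_nonneg_iff ff Q hh0).1 hQ.ge
    have h2 : (inL0 h : L0 E K0 (U := U))⁻¹ ∈ Q.ring := (FF.ord_nonneg_iff ff Q (inv_ne_zero hh0)).1 (by
      rw [FF.ord_inv ff Q hh0, hQ]; simp)
    have h3 : r ^ ℓ ∈ W.ring := by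
      rw [← hh]
      exact (hW _ (inL0 h : L0 E K0 (U := U)).2).1 h1
    have h4 : (r ^ ℓ)⁻¹ ∈ W.ring := by
      rw [← hh]
      exact (hW _ ((inL0 h : L0 E K0 (U := U))⁻¹).2).1 h2
    rw [← W.ring.valuation_le_one_iff, map_pow] at h3
    rw [← W.ring.valuation_le_one_iff, map_inv₀, map_pow] at h4
    have h5 : W.ring.valuation r ≠ 0 := (Valuation.ne_zero_iff _).2 hrn
    rcases lt_trichotomy (W.ring.valuation r) 1 with h6 | h6 | h6
    · exfalso
      have h7 : W.ring.valuation r ^ ℓ < 1 := pow_lt_one₀ zero_le h6 hℓ.ne_zero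
      have h8 : 1 < (W.ring.valuation r ^ ℓ)⁻¹ := (one_lt_inv₀ (zero_lt_iff.2 (pow_ne_zero _ h5))).2 h7
      exact absurd h4 (not_le.2 h8)
    · exact h6
    · exfalso
      exact absurd h3 (not_le.2 (one_lt_pow₀ h6 hℓ.ne_zero))
  obtain ⟨m, hm⟩ := LT.h27_unram (C := E) (M := L0 E K0 (U := U)) (Ω := U) ff (W := W.ring)
    W.algebraMap_mem W.ne_top (fun σ hσ => by
      have hT : AuE E K0 (σ.toRingEquiv : U ≃+* U) := auE59 fun x hx => σ.commutes ⟨x, hx⟩
      have hTr : (σ.toRingEquiv : U ≃+* U) r = r := by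
        obtain ⟨ζ, hζ, h2⟩ := eig_root (E := E) hℓ.pos hrn (T := σ.toRingEquiv) (by
          rw [← hh]
          exact hT.onL0 _ (inL0 h : L0 E K0 (U := U)).2)
        -- the residue
        have hex : ∃ x ∈ MM E K0 r, x ∉ W.ring := by
          obtain ⟨t, ht⟩ : ∃ t : L0 E K0 (U := U), t ∉ Q.ring := by
            by_contra hcon
            push Not at hcon
            exact Q.ne_top (eq_top_iff.mpr fun x _ => hcon x)
          exact ⟨t, L0_le_MM t.2, fun h1 => ht ((hW t t.2).2 h1)⟩
        obtain ⟨c, hc⟩ := FF.exists_residue G.cover.ff (resPlace W.ring W.algebraMap_mem (MM E K0 r) hex)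
          (x := ⟨r, rMM59⟩) (by
            show r ∈ W.ring
            rw [← W.ring.valuation_le_one_iff, hr1])
        have hc1 : W.ring.valuation (r - algebraMap E U c) < 1 := by
          rw [ValuationSubring.mem_nonunits_iff_or] at hc
          rcases hc with h3 | h3
          · have h4 : r - algebraMap E U c = 0 := congrArg Subtype.val h3
            rw [h4, map_zero]
            exact zero_lt_one
          · have h4 : (r - algebraMap E U c)⁻¹ ∉ W.ring := fun h5 => h3 h5
            rw [← W.ring.valuation_le_one_iff, not_le, map_inv₀] at h4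
            by_contra h5
            push Not at h5
            exact absurd h4 (not_lt.2 (inv_le_one_of_one_le₀ h5))
        have hc2 : W.ring.valuation (σ (r - algebraMap E U c)) < 1 := by
          have h3 : ∀ y, W.ring.valuation y < 1 → W.ring.valuation (σ y) < 1 := by
            intro y hy
            by_cases hy0 : y = 0
            · rw [hy0, map_zero, map_zero]
              exact zero_lt_one
            by_contra h4
            push Not at h4
            have h5 : σ y⁻¹ ∈ W.ring := by
              rw [map_inv₀, ← W.ring.valuation_le_one_iff, map_inv₀]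
              exact inv_le_one_of_one_le₀ h4
            have h6 := (hσ _).1 h5
            rw [← W.ring.valuation_le_one_iff, map_inv₀] at h6
            have h7 : 1 < (W.ring.valuation y)⁻¹ :=
              (one_lt_inv₀ (zero_lt_iff.2 ((Valuation.ne_zero_iff _).2 hy0))).2 hy
            exact absurd h6 (not_le.2 h7)
          exact h3 _ hc1
        have hσr : σ r = algebraMap E U ζ * r := h2
        have hσc : σ (algebraMap E U c) = algebraMap E U c := hT.fixE c
        rw [map_sub, hσr, hσc] at hc2
        have hc3 : W.ring.valuation (algebraMap E U ((ζ - 1) * c)) < 1 := by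
          have e1 : algebraMap E U ((ζ - 1) * c) = (algebraMap E U ζ * r - algebraMap E U c) -
              algebraMap E U ζ * (r - algebraMap E U c) := by
            rw [map_mul, map_sub, map_one]
            ring
          rw [e1]
          refine (Valuation.map_sub _ _ _).trans_lt (max_lt hc2 ?_)
          rw [map_mul]
          have h3 : W.ring.valuation (algebraMap E U ζ) ≤ 1 :=
            (W.ring.valuation_le_one_iff _).2 (W.algebraMap_mem ζ)
          exact (mul_le_mul_left h3 _).trans_lt (by rwa [one_mul])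
        have hc4 : (ζ - 1) * c = 0 := by
          by_contra h3
          have h4 : algebraMap E U ((ζ - 1) * c)⁻¹ ∈ W.ring := W.algebraMap_mem _
          rw [map_inv₀, ← W.ring.valuation_le_one_iff, map_inv₀] at h4
          have h5 : 1 < (W.ring.valuation (algebraMap E U ((ζ - 1) * c)))⁻¹ :=
            (one_lt_inv₀ (zero_lt_iff.2 ((Valuation.ne_zero_iff _).2
              ((_root_.map_ne_zero _).2 h3)))).2 hc3
          exact absurd h4 (not_le.2 h5)
        have hc0 : c ≠ 0 := by
          rintro rfl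
          rw [map_zero, sub_zero, hr1] at hc1
          exact lt_irrefl _ hc1
        have hζ1 : ζ = 1 := by
          rcases mul_eq_zero.1 hc4 with h3 | h3
          · exact sub_eq_zero.1 h3
          · exact absurd h3 hc0
        rw [h2, hζ1, map_one, one_mul]
      have hex : ∃ x ∈ (⊤ : IntermediateField E U), x ∉ W.ring := by
        by_contra hcon
        push Not at hcon
        exact W.ne_top (eq_top_iff.mpr fun x _ => hcon x IntermediateField.mem_top)
      intro z
      exact PRL.trivL59 G.cover le_top (resPlace W.ring W.algebraMap_mem ⊤ hex)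
        (fun x _ => IntermediateField.mem_top) hT hTr (fun x hx hx' => (hσ x).symm) z
        IntermediateField.mem_top) z
  have hz0 : z ≠ 0 := by
    rintro rfl
    rw [zero_pow hℓ.ne_zero] at hu
    exact hu0 (Subtype.ext hu)
  have hm0 : m ≠ 0 := by
    rintro rfl
    rw [map_zero, map_zero] at hm
    exact hz0 ((Valuation.zero_iff _).1 hm)
  have hmU0 : (m : U) ≠ 0 := fun h => hm0 (Subtype.ext h)
  have h1 : W.ring.valuation ((u / m ^ ℓ : L0 E K0 (U := U)) : U) = 1 := by
    have e1 : ((u / m ^ ℓ : L0 E K0 (U := U)) : U) = z ^ ℓ / (m : U) ^ ℓ := by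
      rw [← hu]; rfl
    have e2 : W.ring.valuation z = W.ring.valuation (m : U) := hm
    rw [e1, map_div₀, map_pow, map_pow, e2]
    exact div_self (pow_ne_zero _ ((Valuation.ne_zero_iff _).2 hmU0))
  have h2 := ord_zero_of_val_unit ff Q (B := W.ring) (fun x => (hW x x.2).symm)
    (div_ne_zero hu0 (pow_ne_zero _ hm0)) h1
  rw [FF.ord_div ff Q hu0 (pow_ne_zero _ hm0), FF.ord_pow ff Q hm0] at h2
  exact ⟨ord Q.ring m, by linarith⟩

end unr

end Pool.Agent.FF59
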