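import Pool.Agent.Helper10.FF.Defs3
import Pool.Agent.Helper59.FF.KPa

/-!
# Project FF, block VEX: extension of places
-/

set_option autoImplicit false

namespace Pool.Agent.FFX

open Polynomial Pool.Agent.LT Pool.Agent.Helper37.UL UL Pool.Agent.OPN Pool.Agent.OPG _root_.TW Pool.Agent.TWT

/-- a valuation ring contains the elements algebraic over a field of constants -/
theorem mem_of_alg59 {R : Type} [Field R] (W : ValuationSubring R) (F : Subfield R)
    (hF : ∀ z ∈ F, z ∈ W) {z : R} (hz : IsAlgebraic F z) : z ∈ W := by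
  have h1 : IsIntegral F z := hz.isIntegral
  let i : F →+* W := (Subfield.subtype F).codRestrict W.toSubring (fun x => hF x x.2)
  let _ : Algebra F W := i.toAlgebra
  have _ : IsScalarTower F W R := IsScalarTower.of_algebraMap_eq fun _ => rfl
  have h2 : IsIntegral W z := h1.tower_top
  obtain ⟨y, hy⟩ := IsIntegrallyClosed.isIntegral_iff.1 h2
  rw [← hy]
  exact y.2

theorem alg_pull59 {R C : Type} [Field R] [Field C] (ψ : R →+* C) {K : Subfield C}
    (hK : K ≤ ψ.fieldRange) {r : R} (hr : IsAlgebraic K (ψ r)) : IsAlgebraic (K.comap ψ) r := by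
  obtain ⟨n, c, hc, hc0, hcz⟩ := isAlgebraic_iff.mp hr
  choose d hd using fun i => hK (hc i)
  refine isAlgebraic_iff.mpr ⟨n, d, fun i => ?_, ?_, ?_⟩
  · show ψ (d i) ∈ K
    rw [hd]
    exact hc i
  · intro h0
    apply hc0
    funext i
    rw [← hd, h0]
    exact map_zero ψ
  · apply ψ.injective
    rw [map_zero, map_sum, ← hcz]
    refine Finset.sum_congr rfl fun i _ => ?_
    rw [map_mul, map_pow, hd]

theorem stmtVEX : StmtVEX := by
  classical
  intro κ C _ _ _ _ _ _ T hT halg F' hF' R _ ψ hψ W' hW'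
  have hκ : acl F' ≤ (algebraMap κ C).fieldRange := acl_range hF'
  have hR : acl F' ≤ ψ.fieldRange := by rw [hψ]; exact acl_mono le_ad
  -- the algebra structures
  obtain ⟨φ1, hφ1⟩ := FF59.lift_hom (algebraMap κ C) (algebraMap κ C).injective
    (algebraMap (algebraicClosure F' C) C) (fun r => hκ r.2)
  obtain ⟨φ2, hφ2⟩ := FF59.lift_hom ψ ψ.injective (algebraMap (algebraicClosure F' C) C)
    (fun r => hR r.2)
  let i1 : Algebra (algebraicClosure F' C) κ := φ1.toAlgebra
  let i2 : Algebra (algebraicClosure F' C) R := φ2.toAlgebra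
  let i3 : Algebra R C := ψ.toAlgebra
  have s1 : IsScalarTower (algebraicClosure F' C) κ C :=
    IsScalarTower.of_algebraMap_eq fun r => (hφ1 r).symm
  have s2 : IsScalarTower (algebraicClosure F' C) R C :=
    IsScalarTower.of_algebraMap_eq fun r => (hφ2 r).symm
  have hcC : CharZero C := charZero_of_injective_algebraMap (algebraMap κ C).injective
  have hcA : CharZero (algebraicClosure F' C) := inferInstance
  have hAcl : IsAlgClosure F' (algebraicClosure F' C) := inferInstance
  have hAac : IsAlgClosed (algebraicClosure F' C) := hAcl.isAlgClosed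
  obtain ⟨T', hT'⟩ : ∃ T' : R, ψ T' = T := by
    have h1 : T ∈ ψ.fieldRange := by
      rw [hψ]
      exact le_acl mem_adE
    exact h1
  have halgR : Algebra.IsAlgebraic (IntermediateField.adjoin (algebraicClosure F' C) {T'}) R := by
    refine ⟨fun r => ?_⟩
    have h1 : IsAlgebraic (ad F' {T}) (ψ r) := by
      have h2 : ψ r ∈ acl (ad F' {T}) := by
        rw [← hψ]
        exact ⟨r, rfl⟩
      exact mem_acl.1 h2
    have h2 : ad F' {T} ≤ ψ.fieldRange := by rw [hψ]; exact le_acl
    have h3 := alg_pull59 ψ h2 h1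
    have h4 : (ad F' {T}).comap ψ ≤
        (IntermediateField.adjoin (algebraicClosure F' C) {T'}).toSubfield := by
      intro z hz
      have h5 : ad F' {T} ≤
          (IntermediateField.adjoin (algebraicClosure F' C) {T'}).toSubfield.map ψ := by
        refine ad_le (fun y hy => ?_) (fun y hy => ?_)
        · refine ⟨φ2 ⟨y, le_acl hy⟩, ?_, hφ2 _⟩
          exact (IntermediateField.adjoin (algebraicClosure F' C) {T'}).algebraMap_mem ⟨y, le_acl hy⟩
        · rw [Set.mem_singleton_iff.1 hy]
          exact ⟨T', IntermediateField.mem_adjoin_simple_self _ T', hT'⟩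
      obtain ⟨z', hz', h6⟩ := h5 hz
      rw [← ψ.injective h6]
      exact hz'
    exact isAlgebraic_mono h4 h3
  -- linear disjointness
  let b := Module.Basis.ofVectorSpace (algebraicClosure F' C) κ
  have hli : LinearIndependent R (fun i => algebraMap κ C (b i)) :=
    SC.linearIndependent_of_transcendental (E := algebraicClosure F' C) (A := R) (U := κ) (L := C)
      (x := T') (by
        have : algebraMap R C T' = T := hT'
        rw [this]
        exact hT) halgR b.linearIndependent
  -- the constants in `W'`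
  have hcst : ∀ f : algebraicClosure F' C, φ2 f ∈ W' := by
    intro f
    refine mem_of_alg59 W' (F'.comap ψ) hW' ?_
    refine alg_pull59 ψ (le_acl.trans hR) ?_
    rw [hφ2]
    exact mem_acl.1 f.2
  -- the span of the maximal ideal
  let N : Set C := ψ '' {r | r ∈ W'.nonunits}
  have hmul : ∀ {x y : R}, x ∈ W' → y ∈ W'.nonunits → x * y ∈ W'.nonunits := by
    intro x y hx hy
    rw [W'.mem_nonunits_iff] at hy ⊢
    rw [map_mul]
    exact (mul_le_of_le_one_left' ((W'.valuation_le_one_iff x).2 hx)).trans_lt hy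
  have hN : ∀ x ∈ Submodule.span κ N, ∃ l : _ →₀ R, (∀ i, l i ∈ W'.nonunits) ∧
      Finsupp.linearCombination R (fun i => algebraMap κ C (b i)) l = x := by
    intro x hx
    refine Submodule.closure_induction (p := fun x _ => ∃ l : _ →₀ R, (∀ i, l i ∈ W'.nonunits) ∧
      Finsupp.linearCombination R (fun i => algebraMap κ C (b i)) l = x) ?_ ?_ ?_ hx
    · exact ⟨0, fun i => W'.nonunits.zero_mem, map_zero _⟩
    · rintro x y - - ⟨l, hl, rfl⟩ ⟨l', hl', rfl⟩
      exact ⟨l + l', fun i => W'.nonunits.add_mem (hl i) (hl' i), map_add _ _ _⟩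
    · rintro c _ ⟨r, hr, rfl⟩
      refine ⟨(b.repr c).mapRange (fun f => φ2 f * r) (by rw [map_zero, zero_mul]), fun i => ?_, ?_⟩
      · rw [Finsupp.mapRange_apply]
        exact hmul (hcst _) hr
      · rw [Finsupp.linearCombination_apply, Finsupp.sum_mapRange_index (by intro i; rw [zero_smul])]
        conv_rhs => rw [← b.linearCombination_repr c, Finsupp.linearCombination_apply, Finsupp.sum,
          Finset.sum_smul]
        rw [Finsupp.sum]
        refine Finset.sum_congr rfl fun i _ => ?_
        rw [Algebra.smul_def, Algebra.smul_def, Algebra.smul_def, map_mul]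
        have e1 : algebraMap R C (φ2 (b.repr c i)) = algebraMap κ C (algebraMap _ κ (b.repr c i)) := by
          show ψ (φ2 (b.repr c i)) = algebraMap κ C (φ1 (b.repr c i))
          rw [hφ2, hφ1]
        have e2 : algebraMap R C r = ψ r := rfl
        rw [e1, e2, map_mul]
        ring
  have h1N : (1 : C) ∉ Submodule.span κ N := by
    intro h1
    obtain ⟨l, hl, hl1⟩ := hN 1 h1
    have h2 : Finsupp.linearCombination R (fun i => algebraMap κ C (b i))
        ((b.repr 1).mapRange φ2 (map_zero φ2)) = 1 := by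
      rw [Finsupp.linearCombination_apply, Finsupp.sum_mapRange_index (by intro i; rw [zero_smul])]
      have h3 := congrArg (algebraMap κ C) (b.linearCombination_repr 1)
      rw [Finsupp.linearCombination_apply, Finsupp.sum, map_sum, (algebraMap κ C).map_one] at h3
      rw [← h3, Finsupp.sum]
      refine Finset.sum_congr rfl fun i _ => ?_
      rw [Algebra.smul_def, Algebra.smul_def, map_mul]
      congr 1
      show ψ (φ2 (b.repr 1 i)) = algebraMap κ C (φ1 (b.repr 1 i))
      rw [hφ2, hφ1]
    have h3 : l = (b.repr 1).mapRange φ2 (map_zero φ2) := hli (hl1.trans h2.symm)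
    obtain ⟨i, hi⟩ : ∃ i, b.repr 1 i ≠ 0 := by
      by_contra hcon
      push Not at hcon
      have h4 : b.repr (1 : κ) = 0 := Finsupp.ext hcon
      exact one_ne_zero (b.repr.map_eq_zero_iff.1 h4)
    have h4 := hl i
    rw [h3, Finsupp.mapRange_apply, ValuationSubring.mem_nonunits_iff_or] at h4
    rcases h4 with h4 | h4
    · exact hi ((_root_.map_eq_zero φ2).1 h4)
    · apply h4
      rw [← map_inv₀]
      exact hcst _
  -- the ring generated by the constants and `W'`
  let D : Subalgebra κ C := Algebra.adjoin κ (ψ '' {r | r ∈ W'})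
  have hD : ∀ x ∈ D, x ∈ Submodule.span κ (ψ '' {r | r ∈ W'}) := by
    intro x hx
    have h1 : x ∈ Subalgebra.toSubmodule D := hx
    rw [Algebra.adjoin_eq_span] at h1
    have h2 : (Submonoid.closure (ψ '' {r | r ∈ W'}) : Set C) = ψ '' {r | r ∈ W'} := by
      have h3 : (W'.toSubring.toSubmonoid.map ψ : Submonoid C) = Submonoid.closure (ψ '' {r | r ∈ W'}) := by
        rw [← Submonoid.closure_eq (W'.toSubring.toSubmonoid.map ψ)]
        rfl
      rw [← h3]
      rfl
    rwa [h2] at h1
  let I : Ideal D.toSubring := Ideal.span {d : D.toSubring | (d : C) ∈ N}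
  have hI : ∀ x ∈ I, (x : C) ∈ Submodule.span κ N := by
    intro x hx
    refine Submodule.span_induction (p := fun x _ => ((x : D.toSubring) : C) ∈ Submodule.span κ N)
      ?_ ?_ ?_ ?_ hx
    · intro x hx
      exact Submodule.subset_span hx
    · exact zero_mem _
    · intro x y _ _ hx hy
      exact add_mem hx hy
    · intro a x _ hx'
      have h1 : ((a : D.toSubring) : C) ∈ Submodule.span κ (ψ '' {r | r ∈ W'}) := hD _ a.2
      have h2 := Submodule.mul_mem_mul h1 hx'
      rw [Submodule.span_mul_span] at h2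
      refine Submodule.span_mono ?_ h2
      rintro _ ⟨_, ⟨r, hr, rfl⟩, _, ⟨s, hs, rfl⟩, rfl⟩
      exact ⟨r * s, hmul hr hs, map_mul ψ r s⟩
  have hItop : I ≠ ⊤ := by
    intro h1
    apply h1N
    have h2 : (1 : D.toSubring) ∈ I := by rw [h1]; trivial
    exact hI 1 h2
  obtain ⟨B, hDB, hIB⟩ := Ideal.image_subset_nonunits_valuationSubring I hItop
  refine ⟨B, fun z => hDB (D.algebraMap_mem z), ?_⟩
  have hsub : ∀ r ∈ W', ψ r ∈ B := fun r hr => hDB (Algebra.subset_adjoin ⟨r, hr, rfl⟩)
  apply le_antisymm
  · intro r hr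
    by_contra hrW
    have hr' : r⁻¹ ∈ W'.nonunits := by
      rw [ValuationSubring.inv_mem_nonunits_iff]
      exact Or.inr hrW
    have h1 : ψ r⁻¹ ∈ B.nonunits := by
      refine hIB ⟨⟨ψ r⁻¹, ?_⟩, Ideal.subset_span ⟨_, hr', rfl⟩, rfl⟩
      exact Algebra.subset_adjoin ⟨r⁻¹, W'.nonunits_subset hr', rfl⟩
    rw [map_inv₀, ValuationSubring.inv_mem_nonunits_iff] at h1
    rcases h1 with h1 | h1
    · apply hrW
      rw [(_root_.map_eq_zero ψ).1 h1]
      exact zero_mem _
    · exact h1 hr
  · intro r hr
    exact hsub r hr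

end Pool.Agent.FFX
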