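import Pool.Agent.Helper10.FF.Any
import Pool.Agent.Helper59.FF.VEX
import Pool.Agent.Helper37.UL.E2

/-!
# Project FF, block KEY: the key statement for the conditions on `c`
-/

set_option autoImplicit false

namespace Pool.Agent.FFX

open Polynomial Pool.Agent.LT Pool.Agent.Helper37.UL UL Pool.Agent.OPN Pool.Agent.OPG _root_.TW Pool.Agent.TWT
open Pool.Agent.FFS (HypC GoodW OnB)
open Pool.Agent.SC (InDecomp InInert)
open Pool.Agent.SE (prm)

/-- restriction of an automorphism to an algebraic closure -/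
theorem restr59 {k' R C : Type} [Field k'] [Field R] [Algebra k' R] [IsAlgClosure k' R] [Field C]
    (ψ : R →+* C) (γ : C ≃+* C) (hγ : ∀ z : k', γ (ψ (algebraMap k' R z)) = ψ (algebraMap k' R z)) :
    ∃ γ' : R ≃ₐ[k'] R, ∀ y, ψ (γ' y) = γ (ψ y) := by
  have hR : IsAlgClosed R := IsAlgClosure.isAlgClosed k'
  have hk : Algebra.IsAlgebraic k' R := IsAlgClosure.isAlgebraic
  let i1 : Algebra R C := ψ.toAlgebra
  let i2 : Algebra k' C := (ψ.comp (algebraMap k' R)).toAlgebra
  have s1 : IsScalarTower k' R C := IsScalarTower.of_algebraMap_eq fun _ => rfl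
  let γa : C ≃ₐ[k'] C := AlgEquiv.ofRingEquiv (f := γ) hγ
  have hex : ∀ y : R, ∃ y' : R, ψ y' = γ (ψ y) := by
    intro y
    refine FF59.alg_const (E := R) (U := C) (z := γ (ψ y)) ?_
    have h1 : IsAlgebraic k' (ψ y) := (hk.isAlgebraic y).algebraMap (A := C)
    have h2 : IsAlgebraic k' (γa (ψ y)) := h1.algHom (γa : C →ₐ[k'] C)
    exact IsAlgebraic.extendScalars (algebraMap k' R).injective h2
  obtain ⟨g, hg⟩ := FF59.lift_hom ψ ψ.injective ((γ : C →+* C).comp ψ) hex
  let ga : R →ₐ[k'] R :=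
    { g with
      commutes' := fun z => by
        apply ψ.injective
        exact (hg _).trans (hγ z) }
  refine ⟨AlgEquiv.ofBijective ga (Algebra.IsAlgebraic.algHom_bijective ga), fun y => hg y⟩

theorem key (hH3B : StmtH3B) (hKUM : StmtKUM2) : StmtKEY := by
  classical
  intro k₀ _ _ Rw S' hRS f hf ℓ hℓ J F k C _ _ _ _ _ _ _ _ _ ι T q hT htop κ hκ Fs κs hκs Fv hFsv hFvF
    hFsF hq hι m w hwR hw0 hw1 hind Uf S _ π h vv hvFv hx hwr Kb hKF hKT hKq hKv hFvK hKFv hmod
  obtain ⟨e4, he4⟩ := hind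
  have hC0 : CharZero C := charZero_of_injective_algebraMap (algebraMap F C).injective
  have hCa : IsAlgClosed C := IsAlgClosure.isAlgClosed k
  have hCk : Algebra.IsAlgebraic k C := IsAlgClosure.isAlgebraic
  set TC : C := algebraMap k C T with hTC
  set qC : C := algebraMap k C q with hqC
  -- the field `κ`
  have hκF : ∀ c : F, algebraMap F C c ∈ κ := fun c => (hκ _).2 (isAlgebraic_algebraMap c)
  have hFκ : (algebraMap F C).fieldRange ≤ κ := by
    rintro _ ⟨c, rfl⟩
    exact hκF c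
  let iFκ : Algebra F κ := ((algebraMap F C).codRestrict κ.toSubring hκF).toAlgebra
  have sFκ : IsScalarTower F κ C := IsScalarTower.of_algebraMap_eq fun _ => rfl
  have hκ0 : CharZero κ := inferInstance
  have hκr : (algebraMap κ C).fieldRange = κ := by
    ext z
    constructor
    · rintro ⟨c, rfl⟩
      exact c.2
    · intro hz
      exact ⟨⟨z, hz⟩, rfl⟩
  have hκacl : IsAlgClosed κ := by
    refine IsAlgClosed.of_exists_root κ fun p hpm hpi => ?_
    obtain ⟨z, hz⟩ := IsAlgClosed.exists_root (p.map (algebraMap κ C)) (by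
      rw [degree_map]
      exact hpi.degree_pos.ne')
    rw [IsRoot.def, eval_map] at hz
    have hzκ : IsAlgebraic κ z := ⟨p, hpi.ne_zero, hz⟩
    have hκalg : Algebra.IsAlgebraic F κ := ⟨fun z => by
      have h1 : IsAlgebraic F (algebraMap κ C z) := (hκ _).1 z.2
      exact (isAlgebraic_algebraMap_iff (algebraMap κ C).injective).1 h1⟩
    have hzF : IsAlgebraic F z := hzκ.restrictScalars F
    refine ⟨⟨z, (hκ z).2 hzF⟩, ?_⟩
    apply (algebraMap κ C).injective
    rw [map_zero, ← hz]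
    exact (eval₂_at_apply (algebraMap κ C) _).symm
  -- transcendence
  have hTF : Transcendental F TC := (transcendental_algebraMap_iff (algebraMap k C).injective).2 hT
  have hTκ : Transcendental κ TC := by
    have hκalg : Algebra.IsAlgebraic F κ := ⟨fun z => by
      have h1 : IsAlgebraic F (algebraMap κ C z) := (hκ _).1 z.2
      exact (isAlgebraic_algebraMap_iff (algebraMap κ C).injective).1 h1⟩
    exact fun h0 => hTF (h0.restrictScalars F)
  have hq' : IsAlgebraic (ad Fs {TC}) qC := by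
    rw [← gen_one]
    exact hq
  have hFsκ : Fs ≤ (algebraMap κ C).fieldRange := by
    rw [hκr]
    exact hFsF.trans hFκ
  have hFvκ : ∀ j, Fv j ≤ (algebraMap κ C).fieldRange := by
    intro j
    rw [hκr]
    exact (hFvF j).trans hFκ
  have halg : ∀ z : C, IsAlgebraic (IntermediateField.adjoin κ {TC}) z := by
    have h1 : ∀ x : k, algebraMap k C x ∈ acl (ad κ {TC}) := by
      intro x
      have h2 : (IntermediateField.adjoin F {T, q}).toSubfield ≤
          (acl (ad κ {TC})).comap (algebraMap k C) := by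
        rw [adjoin_sub]
        refine ad_le ?_ ?_
        · rintro _ ⟨c, rfl⟩
          change algebraMap k C (algebraMap F k c) ∈ acl (ad κ {TC})
          rw [← IsScalarTower.algebraMap_apply]
          exact le_acl (le_ad (hκF c))
        · rintro z (hz | hz)
          · rw [hz]
            exact le_acl mem_adE
          · rw [Set.mem_singleton_iff.1 hz]
            exact mem_acl.2 (isAlgebraic_mono (ad_mono (hFsF.trans hFκ) le_rfl) hq')
      rw [htop] at h2
      exact h2 (Subfield.mem_top x)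
    intro z
    have h3 : IsAlgebraic (acl (ad κ {TC})) z := by
      obtain ⟨P, hP0, hP⟩ := hCk.isAlgebraic z
      let φ : k →+* acl (ad κ {TC}) :=
        (algebraMap k C).codRestrict (acl (ad κ {TC})).toSubring h1
      refine ⟨P.map φ, (Polynomial.map_ne_zero_iff φ.injective).2 hP0, ?_⟩
      rw [aeval_def, eval₂_map]
      exact hP
    exact alg_adjoin_iff.2 (mem_acl.1 (acl_closed h3))
  -- the coefficients
  let σ : k₀ →+* C := (algebraMap k C).comp ι
  have hσ : ∀ a, σ a ∈ ad Fs {TC, qC} := hι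
  have hσ0 : σ (w 0) ≠ 0 := (map_ne_zero σ).2 hw0
  let u : Fin (m + 2) → C := fun e => σ (w e) / σ (w 0)
  have hu0 : u 0 = 1 := div_self hσ0
  have hu1 : u 1 = TC := by
    change σ (w 1) / σ (w 0) = TC
    rw [div_eq_iff hσ0]
    change algebraMap k C (ι (w 1)) = _
    rw [hw1, map_mul]
    rfl
  have hu : ∀ e, u e ∈ ad Fs {TC, qC} := fun e => (ad Fs {TC, qC}).div_mem (hσ _) (hσ _)
  let a : J → Fin (m + 2) → κ := fun j e => ⟨algebraMap F C (vv j (Sum.inr e)), hκF _⟩
  have hx' : AlgebraicIndependent (Fs.map (UP.cst π)) (xg π fun j e => algebraMap κ C (a j e)) :=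
    hx.comp _ (Sum.inr_injective (α := Fin 0) (β := Fin (m + 2)))
  have hκsacl : κs = acl Fs := by
    ext z
    rw [hκs, mem_acl]
  have hgn : ∀ K : Subfield S, gn K (xg π fun j i => algebraMap F C (vv j i)) =
      gn K (xg π fun j e => algebraMap κ C (a j e)) := by
    intro K
    unfold gn
    congr 2
    ext z
    constructor
    · rintro ⟨i | i, rfl⟩
      · exact Fin.elim0 i
      · exact ⟨i, rfl⟩
    · rintro ⟨i, rfl⟩
      exact ⟨Sum.inr i, rfl⟩
  have hSet : Setup κ Fs TC qC h a Fv u :=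
    { hA := hFsκ, hT := hTκ, halg := halg, hq := hq', hx := hx', hAFv := hFsv, hFv := hFvκ,
      haFv := fun j e => hvFv j (Sum.inr e)
      hwr := fun z hz hza => by
        rw [← hgn] at hza ⊢
        rw [← hκsacl]
        exact hwr z hz hza
      hu0 := hu0, hu1 := hu1, hu := hu }
  have hadacl : ad Fs {TC, qC} ≤ acl (ad Fs {TC}) := by
    rw [ad_pair]
    refine ad_le le_acl ?_
    intro z hz
    rw [Set.mem_singleton_iff.1 hz]
    exact mem_acl.2 hq'
  -- the finite sets
  let SS : Finset C := S'.image σ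
  let BC : Finset C := (f.map σ).roots.toFinset
  have hfσ : f.map σ ≠ 0 := (Polynomial.map_ne_zero_iff σ.injective).2 hf
  have hSS : ∀ z ∈ SS, z ∈ acl (ad Fs {TC}) := by
    intro z hz
    obtain ⟨s, -, rfl⟩ := Finset.mem_image.1 hz
    exact hadacl (hσ s)
  have hBC : ∀ z ∈ BC, z ∈ acl (ad Fs {TC}) := by
    intro z hz
    have h1 : (f.map σ).eval z = 0 := (mem_roots hfσ).1 (Multiset.mem_toFinset.1 hz)
    apply acl_closed
    let φ : k₀ →+* acl (ad Fs {TC}) := σ.codRestrict (acl (ad Fs {TC})).toSubring fun x => hadacl (hσ x)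
    refine ⟨f.map φ, (Polynomial.map_ne_zero_iff φ.injective).2 hf, ?_⟩
    rw [aeval_def, eval₂_map]
    rw [eval_map] at h1
    exact h1
  have hmBC : ∀ z, z ∈ BC ↔ eval₂ σ z f = 0 := by
    intro z
    rw [Multiset.mem_toFinset, mem_roots hfσ, IsRoot.def, eval_map]
  have hind' : LinearIndependent κ (fun i => u (e4 i)) := by
    have h1 := he4.map' (LinearMap.mulLeft κ (σ (w 0))⁻¹) (LinearMap.ker_eq_bot.2
      (mul_right_injective₀ (inv_ne_zero hσ0)))
    have h2 : (fun i => u (e4 i)) = ⇑(LinearMap.mulLeft κ (σ (w 0))⁻¹) ∘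
        fun i => algebraMap k C (ι (w (e4 i))) := by
      funext i
      change σ (w (e4 i)) / σ (w 0) = (σ (w 0))⁻¹ * σ (w (e4 i))
      rw [div_eq_inv_mul]
    rw [h2]
    exact h1
  obtain ⟨any1, any2, any3⟩ := any h hSet
  obtain ⟨B', hB', k5⟩ := hKUM h hSet e4 hind' ℓ hℓ SS BC hSS hBC
  have k4 := hH3B h hSet (BC ∪ B') (fun b hb => (Finset.mem_union.1 hb).elim (hBC b) (hB' b))
  have k1 : ∀ᶠ j in (Uf : Filter J), ∀ z ∈ SS, z ≠ 0 → ∀ W : ValuationSubring C, IsZ κ (gv a u j) W →
      W.valuation z = 1 := by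
    rw [Filter.eventually_all_finset]
    intro z hz
    by_cases hz0 : z = 0
    · exact Filter.Eventually.of_forall fun j h0 => absurd hz0 h0
    · filter_upwards [any1 z (hSS z hz) hz0] with j hj _
      exact hj
  obtain ⟨j, k1, ⟨k2, W, hW⟩, k3, k4, k5⟩ := (k1.and (any2.and (any3.and (k4.and k5)))).exists
  obtain ⟨k₁, k', i1, i2, i3, i4, T', ψ₀, ι', f', hk₁, hfin, hKb, hconst, hι', hf', R, i5, i6, i7, hbad⟩ :=
    hmod j
  apply hbad
  have hRcl : IsAlgClosed R := IsAlgClosure.isAlgClosed k'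
  have hRalg : Algebra.IsAlgebraic k' R := IsAlgClosure.isAlgebraic
  -- the embedding
  obtain ⟨ψ, hψk⟩ : ∃ ψ : R →+* C, ∀ z : k', ψ (algebraMap k' R z) =
      ψ₀ (algebraMap k' (AlgebraicClosure k') z) :=
    ⟨ψ₀.comp ((IsAlgClosure.equiv k' R (AlgebraicClosure k')) : R →+* AlgebraicClosure k'), fun z =>
      congrArg ψ₀ ((IsAlgClosure.equiv k' R (AlgebraicClosure k')).commutes z)⟩
  have hKeq : (Kb j).map (algebraMap k C) = ad (Fv j) {TC, qC} := by
    apply le_antisymm (hKFv j)
    refine ad_le (hFvK j) ?_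
    rintro z (hz | hz)
    · rw [hz]
      exact ⟨T, hKT j, rfl⟩
    · rw [Set.mem_singleton_iff.1 hz]
      exact ⟨q, hKq j, rfl⟩
  have hk'K : ∀ z : k', ψ (algebraMap k' R z) ∈ ad (Fv j) {TC, qC} := by
    intro z
    rw [← hKeq, hKb, hψk]
    exact ⟨z, rfl⟩
  have hKk' : ∀ y ∈ ad (Fv j) {TC, qC}, ∃ z : k', ψ (algebraMap k' R z) = y := by
    intro y hy
    rw [← hKeq, hKb] at hy
    obtain ⟨z, hz⟩ := hy
    exact ⟨z, (hψk z).trans hz⟩
  have hadj : ad (Fv j) {TC, qC} ≤ acl (ad (Fv j) {TC}) := by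
    rw [ad_pair]
    refine ad_le le_acl ?_
    intro z hz
    rw [Set.mem_singleton_iff.1 hz]
    exact mem_acl.2 (isAlgebraic_mono (ad_mono (hFsv j) le_rfl) hq')
  let iRC : Algebra R C := ψ.toAlgebra
  let ik'C : Algebra k' C := (ψ.comp (algebraMap k' R)).toAlgebra
  have sk' : IsScalarTower k' R C := IsScalarTower.of_algebraMap_eq fun _ => rfl
  have hψr : ψ.fieldRange = acl (ad (Fv j) {TC}) := by
    apply le_antisymm
    · rintro _ ⟨y, rfl⟩
      apply acl_closed
      have h1 : IsAlgebraic k' (ψ y) := (hRalg.isAlgebraic y).algebraMap (A := C)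
      have h2 : IsAlgebraic (algebraMap k' C).fieldRange (ψ y) := Pool.Agent.TD.isAlgebraic_range_iff.2 h1
      refine isAlgebraic_mono ?_ h2
      rintro _ ⟨z, rfl⟩
      exact hadj (hk'K z)
    · intro z hz
      have h1 : IsAlgebraic (ad (Fv j) {TC}) z := mem_acl.1 hz
      have h2 : IsAlgebraic (algebraMap R C).fieldRange z := by
        refine isAlgebraic_mono ?_ h1
        intro y hy
        obtain ⟨y', hy'⟩ := hKk' y (ad_mono le_rfl (by
          intro x hx
          exact Or.inl hx) hy)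
        exact ⟨algebraMap k' R y', hy'⟩
      exact FF59.alg_const (E := R) (Pool.Agent.TD.isAlgebraic_range_iff.1 h2)
  have hσι : ∀ x, ψ (algebraMap k' R (ι' x)) = σ x := fun x => (hψk _).trans (hι' x).symm
  have hk₁κ : ∀ x : k₁, ψ (algebraMap k' R (algebraMap k₁ k' x)) ∈ κ := by
    intro x
    obtain ⟨b, hb⟩ := hconst x
    rw [hψk, ← hb, ← IsScalarTower.algebraMap_apply]
    exact hκF b
  -- the constants in a good place
  have hcst : ∀ W' : ValuationSubring R, (∀ z : (algebraMap k₁ k').fieldRange,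
      algebraMap k' R (z : k') ∈ W') → ∀ y : R, ψ y ∈ Fv j → y ∈ W' := by
    intro W' hW' y hy
    obtain ⟨z, hz⟩ := hKk' _ (le_ad hy)
    have hzy : algebraMap k' R z = y := ψ.injective hz
    have hzalg : IsAlgebraic k₁ z := by
      by_contra hzt
      have h1 : Algebra.IsAlgebraic (IntermediateField.adjoin k₁ {T'}) k' :=
        Algebra.IsAlgebraic.of_finite _ _
      have h2 := _root_.SC.isAlgebraic_exchange h1 hzt
      obtain ⟨t, ht⟩ := hKk' TC (mem_ad (Or.inl rfl))
      apply hTκ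
      have h3 : IsAlgebraic (IntermediateField.adjoin k₁ {z}) t := h2.isAlgebraic t
      obtain ⟨P, hP0, hP⟩ := h3
      have h4 : ∀ x : IntermediateField.adjoin k₁ {z}, ψ (algebraMap k' R (x : k')) ∈ κ := by
        have h5 : IntermediateField.adjoin k₁ {z} ≤ (κ.comap (ψ.comp (algebraMap k' R))).toIntermediateField
            (fun x => hk₁κ x) := by
          rw [IntermediateField.adjoin_simple_le_iff]
          show ψ (algebraMap k' R z) ∈ κ
          rw [hz]
          exact hFκ (hFvF j hy)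
        exact fun x => h5 x.2
      let φ : IntermediateField.adjoin k₁ {z} →+* κ :=
        ((ψ.comp (algebraMap k' R)).comp (algebraMap (IntermediateField.adjoin k₁ {z}) k')).codRestrict
          κ.toSubring h4
      refine ⟨P.map φ, (Polynomial.map_ne_zero_iff φ.injective).2 hP0, ?_⟩
      rw [aeval_def, eval₂_map]
      have h6 : (algebraMap κ C).comp φ = (ψ.comp (algebraMap k' R)).comp
          (algebraMap (IntermediateField.adjoin k₁ {z}) k') := RingHom.ext fun _ => rfl
      rw [h6, ← ht]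
      have h7 := congrArg (ψ.comp (algebraMap k' R)) hP
      rw [aeval_def, hom_eval₂, map_zero] at h7
      exact h7
    let i8 : Algebra k₁ R := ((algebraMap k' R).comp (algebraMap k₁ k')).toAlgebra
    have s8 : IsScalarTower k₁ k' R := IsScalarTower.of_algebraMap_eq fun _ => rfl
    have h1 : IsAlgebraic k₁ (algebraMap k' R z) := hzalg.algebraMap (A := R)
    have h2 : IsAlgebraic (algebraMap k₁ R).fieldRange (algebraMap k' R z) :=
      Pool.Agent.TD.isAlgebraic_range_iff.2 h1
    rw [← hzy]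
    refine mem_of_alg59 W' (algebraMap k₁ R).fieldRange ?_ h2
    rintro _ ⟨x, rfl⟩
    exact hW' ⟨algebraMap k₁ k' x, x, rfl⟩
  -- the element `c`
  have hsum' : ψ (algebraMap k' R (f' none)) = ∑ e, algebraMap F C (vv j (Sum.inr e)) * σ (w e) := by
    rw [hψk, ← hf' none]
    change algebraMap k C (∑ e, algebraMap F k (vv j (Sum.inr e)) * ι (w e)) = _
    rw [map_sum]
    refine Finset.sum_congr rfl fun e _ => ?_
    rw [map_mul, ← IsScalarTower.algebraMap_apply]
    rfl
  have hsum : ψ (algebraMap k' R (f' none)) = σ (w 0) * gv a u j := by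
    rw [hsum']
    unfold gv
    rw [Finset.mul_sum]
    refine Finset.sum_congr rfl fun e _ => ?_
    change algebraMap F C (vv j (Sum.inr e)) * σ (w e) =
      σ (w 0) * (algebraMap F C (vv j (Sum.inr e)) * (σ (w e) / σ (w 0)))
    field_simp
  have hne : ψ (algebraMap k' R (f' none)) ≠ 0 := by
    rw [hsum]
    exact mul_ne_zero hσ0 k2
  have hc0' : algebraMap k' R (f' none) ≠ 0 := by
    intro h0
    apply hne
    rw [h0, map_zero]
  have hc0 : f' none ≠ 0 := by
    intro h0
    apply hc0'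
    rw [h0, map_zero]
  have hwS : ∀ e, w e ∈ S' ∧ (w e)⁻¹ ∈ S' := fun e => hRS (w e) (hwR ▸ ⟨e, rfl⟩)
  have hup : ∀ W' : ValuationSubring R, GoodW (algebraMap k₁ k').fieldRange (ι' '' (S' : Set k₀)) W' →
      ∃ W'' : ValuationSubring C, (∀ z : κ, algebraMap κ C z ∈ W'') ∧ W''.comap ψ = W' :=
    fun W' hW' => stmtVEX hTκ halg (Fv j) (hFvκ j) ψ hψr W' (hcst W' hW'.const)
  have hmS : ∀ (W' : ValuationSubring R) (W'' : ValuationSubring C),
      GoodW (algebraMap k₁ k').fieldRange (ι' '' (S' : Set k₀)) W' → W''.comap ψ = W' →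
      ∀ x ∈ S', σ x ∈ W'' := by
    intro W' W'' hg h2 x hx
    have h1 := hg.mem (ι' x) ⟨x, hx, rfl⟩
    rw [← h2, ValuationSubring.mem_comap, hσι] at h1
    exact h1
  have hz : ∀ W' : ValuationSubring R, GoodW (algebraMap k₁ k').fieldRange (ι' '' (S' : Set k₀)) W' →
      algebraMap k' R (f' none) ∈ W'.nonunits →
      ∃ W'' : ValuationSubring C, IsZ κ (gv a u j) W'' ∧ W''.comap ψ = W' := by
    intro W' hg hn
    obtain ⟨W'', h1, h2⟩ := hup W' hg
    have h3 := (W''.valuation_le_one_iff _).2 (hmS W' W'' hg h2 _ (hwS 0).1)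
    have h4 := (W''.valuation_le_one_iff _).2 (hmS W' W'' hg h2 _ (hwS 0).2)
    rw [map_inv₀, map_inv₀] at h4
    have h5 : W''.valuation (σ (w 0)) = 1 :=
      le_antisymm h3 ((inv_le_one₀ (zero_lt_iff.2 ((Valuation.ne_zero_iff _).2 hσ0))).1 h4)
    refine ⟨W'', ⟨h1, ?_⟩, h2⟩
    rw [← h2, ValuationSubring.mem_nonunits_iff, comap_lt_one, hsum, map_mul, h5, one_mul] at hn
    exact hn
  have hz' : ∀ W'' : ValuationSubring C, IsZ κ (gv a u j) W'' →
      GoodW (algebraMap k₁ k').fieldRange (ι' '' (S' : Set k₀)) (W''.comap ψ) ∧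
        algebraMap k' R (f' none) ∈ (W''.comap ψ).nonunits := by
    intro W'' hW''
    have hmem : ∀ x ∈ S', σ x ∈ W'' := by
      intro x hx
      by_cases h0 : σ x = 0
      · rw [h0]
        exact zero_mem _
      · exact (W''.valuation_le_one_iff _).1 (k1 _ (Finset.mem_image_of_mem σ hx) h0 W'' hW'').le
    have h5 : W''.valuation (σ (w 0)) = 1 := k1 _ (Finset.mem_image_of_mem σ (hwS 0).1) hσ0 W'' hW''
    have hn : algebraMap k' R (f' none) ∈ (W''.comap ψ).nonunits := by
      rw [ValuationSubring.mem_nonunits_iff, comap_lt_one, hsum, map_mul, h5, one_mul]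
      exact hW''.lt
    refine ⟨⟨?_, ?_, ?_⟩, hn⟩
    · intro htop
      rcases (ValuationSubring.mem_nonunits_iff_or _).1 hn with h0 | h0
      · exact hc0' h0
      · apply h0
        rw [htop]
        trivial
    · rintro ⟨_, x, rfl⟩
      exact hW''.const ⟨_, hk₁κ x⟩
    · rintro _ ⟨x, hx, rfl⟩
      rw [ValuationSubring.mem_comap, hσι]
      exact hmem x hx
  have hroot : ∀ b ∈ (f.map ι').rootSet R, ψ b ∈ BC := by
    intro b hb
    rw [hmBC]
    have h1 := (mem_rootSet.1 hb).2
    rw [aeval_def, eval₂_map] at h1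
    have h2 := congrArg ψ h1
    rw [hom_eval₂, map_zero] at h2
    have h3 : ψ.comp ((algebraMap k' R).comp ι') = σ := RingHom.ext hσι
    rw [h3] at h2
    exact h2
  have conjB : ∀ W' : ValuationSubring R, GoodW (algebraMap k₁ k').fieldRange (ι' '' (S' : Set k₀)) W' →
      algebraMap k' R (f' none) ∈ W'.nonunits →
      ∃ γ : R ≃ₐ[k'] R, (∀ b : R, ψ b ∈ BC ∪ B' → γ b = b) ∧ ∀ z, γ z ∈ W.comap ψ ↔ z ∈ W' := by
    intro W' hg hn
    obtain ⟨W'', h1, h2⟩ := hz W' hg hn
    obtain ⟨γ, g1, g2, g3⟩ := k4 W W'' hW h1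
    obtain ⟨γ', hγ'⟩ := restr59 ψ γ (fun z => g1 _ (hk'K z))
    refine ⟨γ', fun b hb => ψ.injective (by rw [hγ', g2 _ hb]), fun z => ?_⟩
    rw [ValuationSubring.mem_comap, hγ', g3, ← h2]
    rfl
  obtain ⟨hg, hn⟩ := hz' W hW
  have surjB : ∀ γ : R ≃ₐ[k'] R, ∃ δ : R ≃ₐ[k'] R, InDecomp (W.comap ψ) δ ∧
      ∀ b : R, ψ b ∈ BC ∪ B' → γ b = δ b := by
    intro γ
    have hmem : ∀ z, z ∈ (W.comap ψ).comap (γ : R →+* R) ↔ γ z ∈ W.comap ψ := fun z => Iff.rfl
    have hn' : algebraMap k' R (f' none) ∈ ((W.comap ψ).comap (γ : R →+* R)).nonunits := by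
      rw [ValuationSubring.mem_nonunits_iff_or] at hn ⊢
      rcases hn with h0 | h0
      · exact absurd h0 hc0'
      · right
        intro h1
        apply h0
        rw [hmem, map_inv₀, γ.commutes] at h1
        exact h1
    have hg' : GoodW (algebraMap k₁ k').fieldRange (ι' '' (S' : Set k₀))
        ((W.comap ψ).comap (γ : R →+* R)) := by
      refine ⟨?_, ?_, ?_⟩
      · intro htop
        apply hg.ne
        rw [eq_top_iff]
        intro z _
        have h1 : γ.symm z ∈ (W.comap ψ).comap (γ : R →+* R) := by rw [htop]; trivial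
        rw [hmem, γ.apply_symm_apply] at h1
        exact h1
      · intro z
        rw [hmem, γ.commutes]
        exact hg.const z
      · intro x hx
        rw [hmem, γ.commutes]
        exact hg.mem x hx
    obtain ⟨γ'', g1, g2⟩ := conjB _ hg' hn'
    refine ⟨γ''.symm.trans γ, fun z => ?_, fun b hb => ?_⟩
    · rw [AlgEquiv.trans_apply, ← hmem, ← g2, γ''.apply_symm_apply]
    · rw [AlgEquiv.trans_apply]
      congr 1
      rw [AlgEquiv.eq_symm_apply]
      exact g1 b hb
  refine ⟨W.comap ψ, hg, hc0, hn, ?_, ?_, ?_, ?_, ?_⟩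
  · -- no poles
    intro W' hg'
    obtain ⟨W'', h1, h2⟩ := hup W' hg'
    rw [← h2, ValuationSubring.mem_comap, hsum']
    refine sum_mem fun e _ => mul_mem ?_ (hmS W' W'' hg' h2 _ (hwS e).1)
    exact h1 ⟨_, hκF _⟩
  · -- simple
    intro z hz0
    have hz0' : ψ (algebraMap k' R z) ≠ 0 :=
      (_root_.map_ne_zero ψ).2 ((_root_.map_ne_zero (algebraMap k' R)).2 hz0)
    obtain ⟨i, hi⟩ := (k3 W hW).2 _ (ad_mono (hFvκ j) le_rfl (hk'K z)) hz0'
    have h5 : W.valuation (σ (w 0)) = 1 := k1 _ (Finset.mem_image_of_mem σ (hwS 0).1) hσ0 W hW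
    have h6 : W.valuation (gv a u j) = W.valuation (ψ (algebraMap k' R (f' none))) := by
      rw [hsum, map_mul, h5, one_mul]
    refine ⟨i, ?_⟩
    rw [← map_zpow₀, comap_eq _ _ (zpow_ne_zero i hc0'), map_zpow₀, map_zpow₀, ← h6]
    exact hi
  · intro W' hg' hn'
    obtain ⟨γ, -, g2⟩ := conjB W' hg' hn'
    exact ⟨γ, g2⟩
  · intro γ
    obtain ⟨δ, d1, d2⟩ := surjB γ
    exact ⟨δ, d1, fun b hb => d2 b (Finset.mem_union_left _ (hroot b hb))⟩
  · -- Kummer extensions
    intro r h1 h2 h3 γ hγ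
    have k5r := k5 (ψ r) (fun γC g1 g2 => by
      obtain ⟨γ', hγ'⟩ := restr59 ψ γC (fun z => g1 _ (hk'K z))
      have h4 := h1 γ' (fun b hb => ψ.injective (by rw [hγ', g2 _ (hroot b hb)]))
      rw [← map_pow, ← hγ', h4]) (fun V hV1 hV2 hV3 γC gD gI gB => by
      obtain ⟨γ', hγ'⟩ := restr59 ψ γC (fun z => gD.fix _ (hk'K z))
      by_cases htop : V.comap ψ = ⊤
      · have h4 : ψ r ∈ V := by
          have h5 : r ∈ V.comap ψ := by rw [htop]; trivial
          exact h5
        have h5 := gI _ h4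
        rw [← hγ', ← map_sub, ValuationSubring.mem_nonunits_iff_or] at h5
        rcases h5 with h5 | h5
        · rw [← hγ']
          rw [map_sub] at h5
          exact sub_eq_zero.1 h5
        · exfalso
          apply h5
          rw [← map_inv₀]
          have h6 : (γ' r - r)⁻¹ ∈ V.comap ψ := by rw [htop]; trivial
          exact h6
      · have hgV : GoodW (algebraMap k₁ k').fieldRange (ι' '' (S' : Set k₀)) (V.comap ψ) := by
          refine ⟨htop, ?_, ?_⟩
          · rintro ⟨_, x, rfl⟩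
            exact hV2 ⟨_, hk₁κ x⟩
          · rintro _ ⟨x, hx, rfl⟩
            rw [ValuationSubring.mem_comap, hσι]
            exact hV3 _ (Finset.mem_image_of_mem σ hx)
        have h4 := h2 (V.comap ψ) hgV γ' ⟨fun z => by
          rw [ValuationSubring.mem_comap, ValuationSubring.mem_comap, hγ']
          exact gD.stab _, fun z hzV => by
          rw [ValuationSubring.mem_nonunits_iff, comap_lt_one, map_sub, hγ',
            ← ValuationSubring.mem_nonunits_iff]
          exact gI _ hzV⟩ (fun b hb => ψ.injective (by rw [hγ', gB _ (hroot b hb)]))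
        rw [← hγ', h4]) (fun V hV γC gD gB => by
      obtain ⟨γ', hγ'⟩ := restr59 ψ γC (fun z => gD.fix _ (hk'K z))
      obtain ⟨hgV, hnV⟩ := hz' V hV
      have h4 := h3 (V.comap ψ) hgV hnV γ' (fun z => by
          rw [ValuationSubring.mem_comap, ValuationSubring.mem_comap, hγ']
          exact gD.stab _) (fun b hb => ψ.injective (by rw [hγ', gB _ (hroot b hb)]))
      rw [← hγ', h4])
    have hr : ψ r ∈ ad (ad (Fv j) {TC, qC}) (B' : Set C) :=
      Pool.Agent.UT.mem_of_fixed' (k := ad (ad (Fv j) {TC, qC}) (B' : Set C)) (x := ψ r) fun τ hτ =>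
        k5r τ (fun z hz => hτ z (le_ad hz)) (fun b hb => hτ b (mem_ad hb))
    obtain ⟨δ, d1, d2⟩ := surjB γ
    have hδr : δ r = r := h3 _ hg hn δ d1 (fun b hb => by
      rw [← d2 b (Finset.mem_union_left _ (hroot b hb))]
      exact hγ b hb)
    have h4 : ad (ad (Fv j) {TC, qC}) (B' : Set C) ≤
        (RingHom.eqLocusField (γ : R →+* R) (δ : R →+* R)).map ψ := by
      refine ad_le (fun y hy => ?_) (fun y hy => ?_)
      · obtain ⟨z, hz⟩ := hKk' y hy
        refine ⟨algebraMap k' R z, ?_, hz⟩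
        show γ (algebraMap k' R z) = δ (algebraMap k' R z)
        rw [γ.commutes, δ.commutes]
      · have h5 : y ∈ ψ.fieldRange := by
          rw [hψr]
          exact acl_mono (ad_mono (hFsv j) le_rfl) (hB' y hy)
        obtain ⟨b, hb⟩ := h5
        refine ⟨b, ?_, hb⟩
        show γ b = δ b
        exact d2 b (by rw [hb]; exact Finset.mem_union_right _ hy)
    obtain ⟨r', hr', h5⟩ := h4 hr
    have h6 : r' = r := ψ.injective h5
    have h7 : γ r' = δ r' := hr'
    rw [h6] at h7
    rw [h7, hδr]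

end Pool.Agent.FFX
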