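import Pool.Agent.Helper59.FF.KPa
import Pool.Agent.Helper13.FF.Defs
import Pool.Agent.Helper17.FF.Approx

/-!
# Project FF, block KP: one polynomial over `k₀` whose roots trivialise
-/

set_option autoImplicit false
set_option linter.unusedSectionVars false

namespace Pool.Agent.FFS

open VC IntermediateField Polynomial Pool.Agent.SC Pool.Agent.FF59
open Pool.Agent.L (L0 MM)
open Pool.Agent.LN (Geo Act GoodCurve)
open Pool.Agent.M (Moves OverPl inL0)
open Pool.Agent.ML (BPl GBr)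
open Pool.Agent.TOW (Au AuE over59 auE59 inL59 rMM59 L0_le_MM exists_im)
open Pool.Agent.PDL (eig_root root_const gal_L0)

theorem stmtKP : StmtKP := by
  classical
  intro k₀ K₀ _ _ _ _ hF ℓ hℓ h₀ hh₀
  have hcK : CharZero K₀ := charZero_of_injective_algebraMap (algebraMap k₀ K₀).injective
  have hcA : CharZero (algebraicClosure k₀ (AlgebraicClosure K₀)) :=
    charZero_of_injective_algebraMap (algebraMap k₀ (algebraicClosure k₀ (AlgebraicClosure K₀))).injective
  have hAcl : IsAlgClosure k₀ (algebraicClosure k₀ (AlgebraicClosure K₀)) := inferInstance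
  have hAac : IsAlgClosed (algebraicClosure k₀ (AlgebraicClosure K₀)) := hAcl.isAlgClosed
  have hAalg : Algebra.IsAlgebraic k₀ (algebraicClosure k₀ (AlgebraicClosure K₀)) := hAcl.isAlgebraic
  have hL : IsFunctionField (algebraicClosure k₀ (AlgebraicClosure K₀))
      (L0 (algebraicClosure k₀ (AlgebraicClosure K₀)) K₀ (U := AlgebraicClosure K₀)) :=
    L.TR.ff_L0 hF
  have hh0 : (inL0 h₀ : L0 (algebraicClosure k₀ (AlgebraicClosure K₀)) K₀
      (U := AlgebraicClosure K₀)) ≠ 0 := by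
    intro h0
    have h1 : algebraMap K₀ (AlgebraicClosure K₀) h₀ = 0 := congrArg Subtype.val h0
    exact hh₀ ((_root_.map_eq_zero _).1 h1)
  obtain ⟨S, hS⟩ : ∃ S, S = (FF.dv hL (inL0 h₀ : L0 (algebraicClosure k₀ (AlgebraicClosure K₀)) K₀
      (U := AlgebraicClosure K₀))).support := ⟨_, rfl⟩
  have hmS : ∀ P, P ∈ S ↔ ord P.ring (inL0 h₀ : L0 (algebraicClosure k₀ (AlgebraicClosure K₀)) K₀
      (U := AlgebraicClosure K₀)) ≠ 0 := by
    intro P
    rw [hS, Finsupp.mem_support_iff, FF.dv_apply]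
  obtain ⟨T, hT0, hT⟩ := FF45.bcf2 hL hℓ.pos S
  -- functions which separate the places
  have hsep : ∀ q : Place (algebraicClosure k₀ (AlgebraicClosure K₀))
      (L0 (algebraicClosure k₀ (AlgebraicClosure K₀)) K₀ (U := AlgebraicClosure K₀)) ×
      Place (algebraicClosure k₀ (AlgebraicClosure K₀))
      (L0 (algebraicClosure k₀ (AlgebraicClosure K₀)) K₀ (U := AlgebraicClosure K₀)),
      ∃ x : L0 (algebraicClosure k₀ (AlgebraicClosure K₀)) K₀ (U := AlgebraicClosure K₀),
        q.1 ≠ q.2 → x ∈ q.1.ring ∧ x ∉ q.2.ring := by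
    intro q
    by_cases h1 : q.1 = q.2
    · exact ⟨0, fun h2 => absurd h1 h2⟩
    · by_contra hcon
      push Not at hcon
      apply h1
      apply FF.place_eq_of_le hL
      intro x hx
      exact (hcon x).2 hx
  choose sep hsep using hsep
  obtain ⟨W, hW⟩ : ∃ W, W = T ∪ (S ×ˢ S).image sep := ⟨_, rfl⟩
  have hZex := fun t => fin_coeff (k₀ := k₀) (K₀ := K₀) t
  choose Z hZ using hZex
  have hZint : ∀ α : algebraicClosure k₀ (AlgebraicClosure K₀), IsIntegral k₀ α :=
    fun α => Algebra.IsIntegral.isIntegral α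
  refine ⟨(X ^ ℓ - 1) * ∏ α ∈ W.biUnion Z, minpoly k₀ α, ?_, ?_⟩
  · refine mul_ne_zero (X_pow_sub_C_ne_zero hℓ.pos 1) (Finset.prod_ne_zero_iff.2 fun α _ => ?_)
    exact minpoly.ne_zero (hZint α)
  intro k K0 E U _ _ _ _ _ _ _ _ _ _ _ _ _ _ _ _ hadj hy r G
  have hcl : IsAlgClosed E := G.clE
  have halgE : Algebra.IsAlgebraic k E := G.algE
  have hck : CharZero k := charZero_of_injective_algebraMap (algebraMap k₀ k).injective
  have hcE : CharZero E := charZero_of_injective_algebraMap (algebraMap k E).injective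
  have hcU : CharZero U := charZero_of_injective_algebraMap (algebraMap k U).injective
  let i1 : Algebra k₀ E := ((algebraMap k E).comp (algebraMap k₀ k)).toAlgebra
  let i2 : Algebra K₀ U := ((algebraMap K0 U).comp (algebraMap K₀ K0)).toAlgebra
  let i3 : Algebra k₀ U := ((algebraMap E U).comp (algebraMap k₀ E)).toAlgebra
  have s1 : IsScalarTower k₀ E U := IsScalarTower.of_algebraMap_eq fun x => rfl
  have s2 : IsScalarTower k₀ K₀ U := IsScalarTower.of_algebraMap_eq fun x => by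
    show algebraMap E U (algebraMap k E (algebraMap k₀ k x)) =
      algebraMap K0 U (algebraMap K₀ K0 (algebraMap k₀ K₀ x))
    rw [← IsScalarTower.algebraMap_apply k₀ K₀ K0, IsScalarTower.algebraMap_apply k₀ k K0,
      ← IsScalarTower.algebraMap_apply k K0 U, ← IsScalarTower.algebraMap_apply k E U]
  obtain ⟨φ, ψ, hφψ, hψK, hφk⟩ := exists_psi (k₀ := k₀) (K₀ := K₀) (E := E) (U := U)
  let i4 : Algebra (algebraicClosure k₀ (AlgebraicClosure K₀)) E := φ.toAlgebra
  let i5 : Algebra (algebraicClosure k₀ (AlgebraicClosure K₀)) U := ((algebraMap E U).comp φ).toAlgebra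
  have s4 : IsScalarTower (algebraicClosure k₀ (AlgebraicClosure K₀)) E U :=
    IsScalarTower.of_algebraMap_eq fun x => rfl
  have hψK' : ∀ x : K₀, ψ (inL0 x) = algebraMap K0 U (algebraMap K₀ K0 x) := hψK
  -- the compositum
  have hM : L0 E K0 (U := U) = adjoin E (Set.range ψ) := by
    apply le_antisymm
    · rw [L0, adjoin_le_iff]
      rintro _ ⟨x, rfl⟩
      have hx : x ∈ adjoin k (Set.range (algebraMap K₀ K0)) := by rw [hadj]; exact mem_top
      refine IntermediateField.adjoin_induction (p := fun x _ => algebraMap K0 U x ∈ adjoin E (Set.range ψ))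
        k ?_ ?_ ?_ ?_ ?_ hx
      · rintro _ ⟨y, rfl⟩
        rw [← hψK']
        exact subset_adjoin E _ ⟨_, rfl⟩
      · intro a
        rw [← IsScalarTower.algebraMap_apply k K0 U, IsScalarTower.algebraMap_apply k E U]
        exact (adjoin E (Set.range ψ)).algebraMap_mem _
      · intro a b _ _ ha hb
        rw [map_add]
        exact add_mem ha hb
      · intro a _ ha
        rw [map_inv₀]
        exact inv_mem ha
      · intro a b _ _ ha hb
        rw [map_mul]
        exact mul_mem ha hb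
    · rw [adjoin_le_iff]
      rintro _ ⟨⟨x, hx⟩, rfl⟩
      refine IntermediateField.adjoin_induction (p := fun x hx => ψ ⟨x, hx⟩ ∈ L0 E K0 (U := U))
        (algebraicClosure k₀ (AlgebraicClosure K₀)) ?_ ?_ ?_ ?_ ?_ hx
      · rintro _ ⟨y, rfl⟩
        have h1 := hψK' y
        have h2 : ψ ⟨algebraMap K₀ (AlgebraicClosure K₀) y, subset_adjoin _ _ ⟨y, rfl⟩⟩ ∈
            L0 E K0 (U := U) := by
          have h3 : (⟨algebraMap K₀ (AlgebraicClosure K₀) y, subset_adjoin _ _ ⟨y, rfl⟩⟩ :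
            L0 (algebraicClosure k₀ (AlgebraicClosure K₀)) K₀ (U := AlgebraicClosure K₀)) = inL0 y := rfl
          rw [h3, h1]
          exact inL59 _
        exact h2
      · intro a
        have h1 := hφψ a
        have h2 : ψ (algebraMap _ _ a) ∈ L0 E K0 (U := U) := by
          rw [h1]
          exact (L0 E K0 (U := U)).algebraMap_mem _
        exact h2
      · intro a b ha hb ha' hb'
        have h1 : ψ (⟨a, ha⟩ + ⟨b, hb⟩) ∈ L0 E K0 (U := U) := by
          rw [map_add]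
          exact add_mem ha' hb'
        exact h1
      · intro a ha ha'
        have h1 : ψ (⟨a, ha⟩⁻¹) ∈ L0 E K0 (U := U) := by
          rw [map_inv₀]
          exact inv_mem ha'
        exact h1
      · intro a b ha hb ha' hb'
        have h1 : ψ (⟨a, ha⟩ * ⟨b, hb⟩) ∈ L0 E K0 (U := U) := by
          rw [map_mul]
          exact mul_mem ha' hb'
        exact h1
  obtain ⟨y, hyt⟩ := hy
  have hyE : Transcendental E (ψ (inL0 y)) := by
    intro h1
    apply hyt
    have h2 : IsAlgebraic k (ψ (inL0 y)) := h1.restrictScalars k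
    rw [hψK'] at h2
    exact (isAlgebraic_algebraMap_iff (algebraMap K0 U).injective).1 h2
  have hyA : Transcendental (algebraicClosure k₀ (AlgebraicClosure K₀))
      (inL0 y : L0 (algebraicClosure k₀ (AlgebraicClosure K₀)) K₀ (U := AlgebraicClosure K₀)) := by
    intro h1
    apply hyE
    obtain ⟨p, hp0, hp⟩ := h1
    refine ⟨p.map φ, (Polynomial.map_ne_zero_iff φ.injective).2 hp0, ?_⟩
    rw [Polynomial.aeval_def, Polynomial.eval₂_map]
    have h2 : (algebraMap E U).comp φ = ψ.comp (algebraMap _ _) := by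
      ext a
      exact (hφψ a).symm
    rw [h2, ← Polynomial.hom_eval₂, ← Polynomial.aeval_def, hp, map_zero]
  have halg : Algebra.IsAlgebraic (algebraicClosure k₀ (AlgebraicClosure K₀))⟮
      (inL0 y : L0 (algebraicClosure k₀ (AlgebraicClosure K₀)) K₀ (U := AlgebraicClosure K₀))⟯
      (L0 (algebraicClosure k₀ (AlgebraicClosure K₀)) K₀ (U := AlgebraicClosure K₀)) := by
    obtain ⟨t, _, hfin⟩ := id hL
    have h1 : Algebra.IsAlgebraic (algebraicClosure k₀ (AlgebraicClosure K₀))⟮t⟯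
      (L0 (algebraicClosure k₀ (AlgebraicClosure K₀)) K₀ (U := AlgebraicClosure K₀)) :=
      Algebra.IsAlgebraic.of_finite _ _
    exact SC.isAlgebraic_exchange h1 hyA
  obtain ⟨i6, s6, hval, hC⟩ := constExt59 (A := algebraicClosure k₀ (AlgebraicClosure K₀)) ψ hφψ
    (L0 E K0 (U := U)) hM hyE halg
  have hMF := hC.isFunctionField hL
  have hvh : algebraMap (L0 (algebraicClosure k₀ (AlgebraicClosure K₀)) K₀ (U := AlgebraicClosure K₀))
      (L0 E K0 (U := U)) (inL0 h₀) = inL0 (algebraMap K₀ K0 h₀) := by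
    apply Subtype.ext
    rw [hval, hψK']
    rfl
  have hhM0 : (inL0 (algebraMap K₀ K0 h₀) : L0 E K0 (U := U)) ≠ 0 := by
    rw [← hvh]
    exact (_root_.map_ne_zero _).2 hh0
  -- the order of `h` at generic places
  have hgen0 : ∀ (Q : Place E (L0 E K0 (U := U)))
      (χ : L0 (algebraicClosure k₀ (AlgebraicClosure K₀)) K₀ (U := AlgebraicClosure K₀)
        →ₐ[algebraicClosure k₀ (AlgebraicClosure K₀)] E), FF.Gen Q χ →
      ord Q.ring (inL0 (algebraMap K₀ K0 h₀) : L0 E K0 (U := U)) = 0 := by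
    intro Q χ hχ
    have h1 := FF.lift_gen hC hL (FF.dv hL (inL0 h₀)) hχ
    rw [FF.lift_dv hC hL hh0, FF.dv_apply, hvh] at h1
    exact h1
  -- what is fixed
  have hroot : ∀ (e : E), (e ^ ℓ = 1 ∨ ∃ α ∈ W.biUnion Z, e = φ α) →
      e ∈ (((X ^ ℓ - 1) * ∏ α ∈ W.biUnion Z, minpoly k₀ α).map (algebraMap k₀ k)).rootSet E := by
    intro e he
    rw [Polynomial.mem_rootSet]
    refine ⟨(Polynomial.map_ne_zero_iff (algebraMap k₀ k).injective).2 (mul_ne_zero
      (X_pow_sub_C_ne_zero hℓ.pos 1) (Finset.prod_ne_zero_iff.2 fun α _ => minpoly.ne_zero (hZint α))), ?_⟩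
    rw [Polynomial.aeval_def, Polynomial.eval₂_map, Polynomial.eval₂_mul]
    rcases he with he | ⟨α, hα, rfl⟩
    · rw [Polynomial.eval₂_sub, Polynomial.eval₂_X_pow, Polynomial.eval₂_one, he, sub_self, zero_mul]
    · rw [← Finset.mul_prod_erase _ _ hα, Polynomial.eval₂_mul]
      have h1 : (algebraMap k E).comp (algebraMap k₀ k) = φ.comp (algebraMap k₀ _) := by
        ext a
        exact (hφk a).symm
      have h2 : Polynomial.eval₂ ((algebraMap k E).comp (algebraMap k₀ k)) (φ α) (minpoly k₀ α) = 0 := by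
        rw [h1, ← Polynomial.hom_eval₂, ← Polynomial.aeval_def, minpoly.aeval, map_zero]
      rw [h2, zero_mul, mul_zero]
  have hfix : ∀ (γ : E ≃ₐ[k] E) (T' : U ≃+* U), OnB ((((X ^ ℓ - 1) * ∏ α ∈ W.biUnion Z,
      minpoly k₀ α).map (algebraMap k₀ k)).rootSet E) γ →
      (∀ x : K0, T' (algebraMap K0 U x) = algebraMap K0 U x) →
      (∀ e : E, T' (algebraMap E U e) = algebraMap E U (γ e)) → ∀ t ∈ W, T' (ψ t) = ψ t := by
    intro γ T' hγ hK hE t ht
    refine hZ t U ψ T' (fun x => ?_) (fun α hα => ?_)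
    · rw [hψK']
      exact hK _
    · rw [hφψ, hE, hγ _ (hroot _ (Or.inr ⟨α, Finset.mem_biUnion.2 ⟨t, ht, hα⟩, rfl⟩))]
  have hmu : ∀ γ : E ≃ₐ[k] E, OnB ((((X ^ ℓ - 1) * ∏ α ∈ W.biUnion Z,
      minpoly k₀ α).map (algebraMap k₀ k)).rootSet E) γ → ∀ ζ : E, ζ ^ ℓ = 1 → γ ζ = ζ :=
    fun γ hγ ζ hζ => hγ _ (hroot _ (Or.inl hζ))
  have hpres : ∀ (γ : E ≃ₐ[k] E) (T' : U ≃+* U),
      (∀ x : K0, T' (algebraMap K0 U x) = algebraMap K0 U x) →
      (∀ e : E, T' (algebraMap E U e) = algebraMap E U (γ e)) →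
      ∀ z ∈ L0 E K0 (U := U), T' z ∈ L0 E K0 (U := U) := by
    intro γ T' hK hE z hz
    refine IntermediateField.adjoin_induction (p := fun z _ => T' z ∈ L0 E K0 (U := U)) E
      ?_ ?_ ?_ ?_ ?_ hz
    · rintro _ ⟨x, rfl⟩
      rw [hK]
      exact inL59 x
    · intro e
      rw [hE]
      exact (L0 E K0 (U := U)).algebraMap_mem _
    · intro a b _ _ ha hb
      rw [map_add]
      exact add_mem ha hb
    · intro a _ ha
      rw [map_inv₀]
      exact inv_mem ha
    · intro a b _ _ ha hb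
      rw [map_mul]
      exact mul_mem ha hb
  have hinv : ∀ (γ : E ≃ₐ[k] E) (T' : U ≃+* U),
      (∀ x : K0, T' (algebraMap K0 U x) = algebraMap K0 U x) →
      (∀ e : E, T' (algebraMap E U e) = algebraMap E U (γ e)) →
      (∀ x : K0, T'⁻¹ (algebraMap K0 U x) = algebraMap K0 U x) ∧
      ∀ e : E, T'⁻¹ (algebraMap E U e) = algebraMap E U (γ⁻¹ e) := by
    intro γ T' hK hE
    refine ⟨fun x => ?_, fun e => ?_⟩
    · show T'.symm _ = _
      rw [RingEquiv.symm_apply_eq, hK]
    · show T'.symm _ = _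
      rw [RingEquiv.symm_apply_eq, hE]
      congr 1
      exact (γ.apply_symm_apply e).symm
  refine ⟨hmu, ?_, ?_⟩
  · -- branch places
    intro γ T' hγ hK hE b hb
    obtain ⟨hK', hE'⟩ := hinv γ T' hK hE
    have hb0 : ord b.ring (inL0 (algebraMap K₀ K0 h₀) : L0 E K0 (U := U)) ≠ 0 := by
      intro h1
      apply hb
      rw [h1]
      exact dvd_zero _
    have hover : ∀ Q : Place E (L0 E K0 (U := U)),
        ord Q.ring (inL0 (algebraMap K₀ K0 h₀) : L0 E K0 (U := U)) ≠ 0 →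
        ∃ P ∈ S, FF.Over Q P := by
      intro Q hQ
      rcases hC.over_or_gen hL Q with ⟨P, hP⟩ | ⟨χ, hχ⟩
      · refine ⟨P, ?_, hP⟩
        rw [hmS]
        intro h1
        apply hQ
        rw [← hvh, FF.Over.ord_eq hC hL hP, h1]
      · exact absurd (hgen0 Q χ hχ) hQ
    obtain ⟨b', hb'⟩ := exists_im (hpres γ T' hK hE) (hpres γ⁻¹ T'⁻¹ hK' hE')
      (fun e => ⟨_, hE' e⟩) b
    have hTh : T' ((inL0 (algebraMap K₀ K0 h₀) : L0 E K0 (U := U)) : U) =
        ((inL0 (algebraMap K₀ K0 h₀) : L0 E K0 (U := U)) : U) := hK _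
    have hmv : ∀ x : L0 E K0 (U := U), T' (x : U) = x → (x ∈ b.ring ↔ x ∈ b'.ring) := by
      intro x hx
      have h1 := hb' x x.2 (by rw [hx]; exact x.2)
      have h2 : (⟨T' (x : U), by rw [hx]; exact x.2⟩ : L0 E K0 (U := U)) = x := Subtype.ext hx
      rw [h2] at h1
      exact h1
    have hb'0 : ord b'.ring (inL0 (algebraMap K₀ K0 h₀) : L0 E K0 (U := U)) ≠ 0 := by
      intro h1
      have h2 : (inL0 (algebraMap K₀ K0 h₀) : L0 E K0 (U := U)) ∈ b'.ring :=
        (FF.ord_nonneg_iff hMF b' hhM0).1 h1.ge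
      have h3 : (inL0 (algebraMap K₀ K0 h₀) : L0 E K0 (U := U))⁻¹ ∈ b'.ring :=
        (FF.ord_nonneg_iff hMF b' (inv_ne_zero hhM0)).1 (by rw [FF.ord_inv hMF b' hhM0, h1]; simp)
      have h4 := (hmv _ hTh).2 h2
      have h5 := (hmv (inL0 (algebraMap K₀ K0 h₀) : L0 E K0 (U := U))⁻¹ (by
        rw [IntermediateField.coe_inv, map_inv₀, hTh])).2 h3
      have h6 := (FF.ord_nonneg_iff hMF b hhM0).2 h4
      have h7 := (FF.ord_nonneg_iff hMF b (inv_ne_zero hhM0)).2 h5
      rw [FF.ord_inv hMF b hhM0] at h7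
      exact hb0 (by linarith)
    obtain ⟨P, hPS, hP⟩ := hover b hb0
    obtain ⟨P', hPS', hP'⟩ := hover b' hb'0
    have hPP : P = P' := by
      by_contra hne
      have h1 := hsep (P, P') hne
      have h2 : T' (ψ (sep (P, P'))) = ψ (sep (P, P')) := by
        refine hfix γ T' hγ hK hE _ ?_
        rw [hW]
        exact Finset.mem_union_right _ (Finset.mem_image_of_mem _ (Finset.mem_product.2 ⟨hPS, hPS'⟩))
      have h3 := (hP (sep (P, P'))).2 h1.1
      have h4 := (hmv _ (by rw [hval]; exact h2)).1 h3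
      exact h1.2 ((hP' _).1 h4)
    have hbb : b' = b := FF.Over.eq hC hL (hPP ▸ hP') hP
    rw [hbb] at hb'
    exact hb'
  · -- the maximal abelian extension
    intro γ T' hγ hK hE a ha z hz
    by_cases hz0 : z = 0
    · rw [hz0]
      simp only [map_zero]
    obtain ⟨u, hu⟩ : ∃ u : L0 E K0 (U := U), (u : U) = z ^ ℓ := ⟨⟨z ^ ℓ, hz⟩, rfl⟩
    have hu0 : u ≠ 0 := by
      rintro rfl
      exact pow_ne_zero ℓ hz0 hu.symm
    obtain ⟨f, w, hf0, hw0, huf⟩ := FF45.bcf1 hC hL hℓ.ne_zero hu0 (fun Q χ hχ =>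
      dvd59 hℓ G hu0 hu Q (hgen0 Q χ hχ))
    have hfM : algebraMap _ (L0 E K0 (U := U)) f ≠ 0 := (_root_.map_ne_zero _).2 hf0
    obtain ⟨t, ht, w', hw', hft⟩ := hT f hf0 (fun P hP => by
      have h1 : ord (FF.ab hC hL P).ring (inL0 (algebraMap K₀ K0 h₀) : L0 E K0 (U := U)) = 0 := by
        rw [← hvh, FF.Over.ord_eq hC hL (FF.ab_over hC hL P)]
        by_contra h2
        exact hP ((hmS P).2 h2)
      have h2 := dvd59 hℓ G hu0 hu (FF.ab hC hL P) h1
      rw [huf, FF.ord_mul hMF _ hfM (pow_ne_zero _ hw0), FF.ord_pow hMF _ hw0,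
        FF.Over.ord_eq hC hL (FF.ab_over hC hL P)] at h2
      exact (dvd_add_left (dvd_mul_right _ _)).mp h2)
    -- `u = t v ^ ℓ`
    obtain ⟨v, hv⟩ : ∃ v : L0 E K0 (U := U), v = algebraMap _ (L0 E K0 (U := U)) w' * w := ⟨_, rfl⟩
    have hv0 : (v : U) ≠ 0 := by
      intro h1
      have h2 : v = 0 := Subtype.ext h1
      rw [hv] at h2
      exact mul_ne_zero ((_root_.map_ne_zero _).2 hw') hw0 h2
    have hut : u = algebraMap _ (L0 E K0 (U := U)) t * v ^ ℓ := by
      rw [huf, hft, hv, map_mul, map_pow, mul_pow, mul_assoc]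
    have hzt : z ^ ℓ = ψ t * (v : U) ^ ℓ := by
      rw [← hu, hut, ← hval]
      rfl
    have hTt : T' (ψ t) = ψ t := hfix γ T' hγ hK hE t (by rw [hW]; exact Finset.mem_union_left _ ht)
    have hTz : (T' z / (z * (T' v / v))) ^ ℓ = 1 := by
      have h1 : T' z ^ ℓ = ψ t * (T' v) ^ ℓ := by
        rw [← map_pow, hzt, map_mul, map_pow, hTt]
      have h2 : ψ t ≠ 0 := by
        intro h3
        rw [h3, zero_mul] at hzt
        exact pow_ne_zero ℓ hz0 hzt
      have h3 : T' (v : U) ≠ 0 := (_root_.map_ne_zero T').2 hv0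
      rw [div_pow, mul_pow, div_pow, h1, hzt]
      field_simp
    obtain ⟨ζ', hζ'⟩ := root_const (E := E) hℓ.pos hTz
    have hTz0 : z * (T' v / v) ≠ 0 := mul_ne_zero hz0 (div_ne_zero ((_root_.map_ne_zero T').2 hv0) hv0)
    have hTz' : T' z = algebraMap E U ζ' * (z * (T' v / v)) := by
      rw [hζ', div_mul_cancel₀ _ hTz0]
    obtain ⟨ζ, hζ, haz⟩ := eig_root (E := E) hℓ.pos hz0 (T := a) (ha.onL0 _ hz)
    rw [haz, map_mul, hE, hmu γ hγ ζ hζ, hTz', map_mul, ha.fixE, map_mul, haz, map_div₀,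
      ha.onL0 _ (hpres γ T' hK hE v v.2), ha.onL0 _ v.2]
    ring

end Pool.Agent.FFS
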